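import Pool.Agent.Lib_helper72.KY.V4

/-!
# The curve with `b = 105/4`, `c = 21/2`: the units, their logarithmic derivatives
-/

set_option autoImplicit false
set_option linter.unusedSectionVars false
set_option linter.unusedSimpArgs false
set_option linter.unusedVariables false

namespace Pool.Agent.KYc

open Polynomial WeierstrassCurve.Affine WithZero TN KY
open Pool.Agent.K7 (LC LC_x LC_y LC_xc LC_yx LC_one LC_c LC_prod wr2)

section K

variable (k : Type*) [Field k]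

/-- the curve -/
abbrev W8 : WeierstrassCurve.Affine k := Wt (105/4) (21/2)

/-- the units -/
noncomputable def uK : Fin 11 → K (W8 k) :=
  ![xK, xK - cK (105/4), xK - cK (21/2), xK - cK (15/4), xK - cK (105), xK - cK (-21/16), yK,
    yK - cK (21/2) * xK, yK - cK (3/2) * xK, yK - cK (15) * xK, yK - cK (-21/4) * xK]

lemma LC_uK (j : Fin 11) : LC (uK k j) (- oU j 0) 1 := by
  fin_cases j
  · exact LC_x
  · exact LC_xc _
  · exact LC_xc _
  · exact LC_xc _
  · exact LC_xc _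
  · exact LC_xc _
  · exact LC_y
  · exact LC_yx _
  · exact LC_yx _
  · exact LC_yx _
  · exact LC_yx _

lemma uK_ne (j : Fin 11) : uK k j ≠ 0 := (LC_uK k j).ne

/-- the function vanishing at the eleven points -/
noncomputable def qK : K (W8 k) :=
  xK * (xK - cK (105/4)) * (xK - cK (21/2)) *
    (xK - cK (15/4)) * (xK - cK (105)) * (xK - cK (-21/16))

/-- the coefficients of `q u'/u`, times `2048` -/
def rrz : Fin 11 → Fin 13 → ℤ :=
  ![![-7657689375, -5469778125, 583443000, 1083537000, 205594200, 504989100, -156960720, -79313472, 18329472, 2751552, -590592, -19456, 4096],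
    ![0, 291721500, 0, 219485700, -22226400, -32916240, -8678880, -20491632, 5648832, 2240832, -483072, -19456, 4096],
    ![0, 729303750, 0, 590388750, -55566000, -46966500, -24872400, -52567200, 12579840, 2547264, -547584, -19456, 4096],
    ![0, 2042050500, 0, 2003154300, -155584800, 245231280, -96314400, -69268752, 16172352, 2678592, -575232, -19456, 4096],
    ![0, 72930375, 0, 52787700, -5556600, -9816660, -2010960, -4902912, 1475712, 708672, -160512, -19456, 4096],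
    ![0, -5834430000, 0, 277830000, 444528000, 613872000, -182044800, -82958400, 19111680, 2777088, -595968, -19456, 4096],
    ![-15315378750, -7876480500, 583443000, 3363132150, 194481000, 231498540, -161300160, -92053584, 21153888, 4938624, -832128, -38912, 6144],
    ![-7657689375, -4740474375, 291721500, 1382204250, 63900900, 327442500, -95256000, -65836512, 18279072, 2424000, -810624, -17408, 6144],
    ![-7657689375, -364651875, 291721500, 4341093750, -2778300, -15479100, -139073760, -106267392, 23540832, 4772928, -856704, -35840, 6144],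
    ![-7657689375, -4959265500, 291721500, 1365534450, 22226400, 434605500, -127643040, -71530704, 17988768, 2244864, -663168, -8192, 6144],
    ![-7657689375, -6928385625, 291721500, 1778112000, 322282800, 434605500, -170508240, -86036832, 19458432, 3867456, -673536, -49664, 6144]]

/-- the coefficients of `q u'/u` -/
def rr (j : Fin 11) (m : Fin 13) : k := (rrz j m : k) / 2048

lemma rr_top [CharZero k] (j : Fin 11) : rr k j 12 = ((- oU j 0 : ℤ) : k) := by
  have h : ∀ j : Fin 11, rrz j 12 = 2048 * (- oU j 0) := by decide +kernel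
  unfold rr
  rw [h]
  first | (push_cast; field_simp; done) | (push_cast; simp; done) | simp

lemma hdx : (dx : K (W8 k)) = 2 * yK + (1 - cK (21/2)) * xK - cK (105/4) := by
  show 2 * yK + cK (1 - 21/2) * xK + cK (- (105/4)) = _
  simp only [map_sub, map_one, map_neg]; ring

lemma hdy : (dy : K (W8 k)) = 3 * xK ^ 2 - 2 * cK (105/4) * xK - (1 - cK (21/2)) * yK := by
  show 3 * xK ^ 2 + 2 * cK (- (105/4)) * xK + cK 0 - cK (1 - 21/2) * yK = _
  simp only [map_sub, map_one, map_neg, map_zero]; ring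

lemma dv_cmul (a : k) (z : K (W8 k)) : dv (cK a * z) = cK a * dv z := by
  rw [dv_mul, dv_c, mul_zero, add_zero]

lemma dv_sub' (z w : K (W8 k)) : dv (z - w) = dv z - dv w := by
  have h := dv_add (z - w) w
  rw [sub_add_cancel] at h
  linear_combination -h

/-- the derivatives of the units -/
lemma dv_uK (j : Fin 11) : dv (uK k j) = (![dx, dx, dx, dx, dx, dx, dy,
    dy - cK (21/2) * dx, dy - cK (3/2) * dx, dy - cK (15) * dx, dy - cK (-21/4) * dx] : Fin 11 → K (W8 k)) j := by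
  fin_cases j
  · exact dv_x
  · exact (dv_sub_c _ _).trans dv_x
  · exact (dv_sub_c _ _).trans dv_x
  · exact (dv_sub_c _ _).trans dv_x
  · exact (dv_sub_c _ _).trans dv_x
  · exact (dv_sub_c _ _).trans dv_x
  · exact dv_y
  · show dv (yK - cK (21/2) * xK) = dy - cK (21/2) * dx
    rw [dv_sub', dv_cmul, dv_x, dv_y]
  · show dv (yK - cK (3/2) * xK) = dy - cK (3/2) * dx
    rw [dv_sub', dv_cmul, dv_x, dv_y]
  · show dv (yK - cK (15) * xK) = dy - cK (15) * dx
    rw [dv_sub', dv_cmul, dv_x, dv_y]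
  · show dv (yK - cK (-21/4) * xK) = dy - cK (-21/4) * dx
    rw [dv_sub', dv_cmul, dv_x, dv_y]

lemma eqW8 : (yK : K (W8 k)) ^ 2 + (1 - cK (21/2)) * xK * yK - cK (105/4) * yK =
    xK ^ 3 - cK (105/4) * xK ^ 2 := eqW

lemma NV_eq (r : Fin 13 → k) : (NV r : K (W8 k)) = cK (r 0) + cK (r 1) * xK + cK (r 2) * yK +
    cK (r 3) * xK ^ 2 + cK (r 4) * (xK * yK) + cK (r 5) * xK ^ 3 + cK (r 6) * (xK ^ 2 * yK) +
    cK (r 7) * xK ^ 4 + cK (r 8) * (xK ^ 3 * yK) + cK (r 9) * xK ^ 5 +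
    cK (r 10) * (xK ^ 4 * yK) + cK (r 11) * xK ^ 6 + cK (r 12) * (xK ^ 5 * yK) := by
  unfold NV
  rw [Fin.sum_univ_castSucc, sum12]
  show cK (r 0) * 1 + cK (r 1) * xK + cK (r 2) * yK + cK (r 3) * xK ^ 2 +
    cK (r 4) * (xK * yK) + cK (r 5) * xK ^ 3 + cK (r 6) * (xK ^ 2 * yK) + cK (r 7) * xK ^ 4 +
    cK (r 8) * (xK ^ 3 * yK) + cK (r 9) * xK ^ 5 + cK (r 10) * (xK ^ 4 * yK) +
    cK (r 11) * xK ^ 6 + cK (r 12) * (xK ^ 5 * yK) = _
  ring


lemma ld_uK0 [CharZero k] : qK k * ld (uK k 0) = NV (rr k 0) := by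
  have : CharZero (K (W8 k)) :=
    charZero_of_injective_algebraMap (algebraMap k (K (W8 k))).injective
  have hu := uK_ne k 0
  have he := eqW8 k
  have h1 := hdx k
  have h2 := hdy k
  have n0 : (cK (105/4) : K (W8 k)) = 105/4 := by simp [map_div₀, map_ofNat, map_neg]
  have n1 : (cK (21/2) : K (W8 k)) = 21/2 := by simp [map_div₀, map_ofNat, map_neg]
  have n2 : (cK (15/4) : K (W8 k)) = 15/4 := by simp [map_div₀, map_ofNat, map_neg]
  have n3 : (cK (105) : K (W8 k)) = 105 := by simp [map_div₀, map_ofNat, map_neg]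
  have n4 : (cK (-21/16) : K (W8 k)) = -21/16 := by simp [map_div₀, map_ofNat, map_neg]
  have n5 : (cK (3/2) : K (W8 k)) = 3/2 := by simp [map_div₀, map_ofNat, map_neg]
  have n6 : (cK (15) : K (W8 k)) = 15 := by simp [map_div₀, map_ofNat, map_neg]
  have n7 : (cK (-21/4) : K (W8 k)) = -21/4 := by simp [map_div₀, map_ofNat, map_neg]
  have hr : ∀ j m, (cK (rr k j m) : K (W8 k)) = ((rrz j m : ℤ) : K (W8 k)) / 2048 := by
    intro j m
    unfold rr
    first | rw [map_div₀, map_intCast, map_ofNat] | rw [map_div₀, map_intCast, map_one]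
  rw [n0, n1] at he h1 h2
  unfold ld
  rw [← mul_div_assoc, div_eq_iff hu, dv_uK, NV_eq]
  simp only [hr]
  unfold qK
  rw [n0, n1, n2, n3, n4]
  show xK * (xK - (105/4)) * (xK - (21/2)) * (xK - (15/4)) * (xK - (105)) * (xK - (-21/16)) * dx =
      (((-7657689375 : ℤ) : K (W8 k)) / 2048 + ((-5469778125 : ℤ) : K (W8 k)) / 2048 * xK +
      ((583443000 : ℤ) : K (W8 k)) / 2048 * yK + ((1083537000 : ℤ) : K (W8 k)) / 2048 * xK ^ 2 +
      ((205594200 : ℤ) : K (W8 k)) / 2048 * (xK * yK) + ((504989100 : ℤ) : K (W8 k)) / 2048 * xK ^ 3 +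
      ((-156960720 : ℤ) : K (W8 k)) / 2048 * (xK ^ 2 * yK) + ((-79313472 : ℤ) : K (W8 k)) / 2048 * xK ^ 4 +
      ((18329472 : ℤ) : K (W8 k)) / 2048 * (xK ^ 3 * yK) + ((2751552 : ℤ) : K (W8 k)) / 2048 * xK ^ 5 +
      ((-590592 : ℤ) : K (W8 k)) / 2048 * (xK ^ 4 * yK) + ((-19456 : ℤ) : K (W8 k)) / 2048 * xK ^ 6 +
      ((4096 : ℤ) : K (W8 k)) / 2048 * (xK ^ 5 * yK)) * (xK)
  push_cast
  rw [h1]
  ring


lemma ld_uK1 [CharZero k] : qK k * ld (uK k 1) = NV (rr k 1) := by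
  have : CharZero (K (W8 k)) :=
    charZero_of_injective_algebraMap (algebraMap k (K (W8 k))).injective
  have hu := uK_ne k 1
  have he := eqW8 k
  have h1 := hdx k
  have h2 := hdy k
  have n0 : (cK (105/4) : K (W8 k)) = 105/4 := by simp [map_div₀, map_ofNat, map_neg]
  have n1 : (cK (21/2) : K (W8 k)) = 21/2 := by simp [map_div₀, map_ofNat, map_neg]
  have n2 : (cK (15/4) : K (W8 k)) = 15/4 := by simp [map_div₀, map_ofNat, map_neg]
  have n3 : (cK (105) : K (W8 k)) = 105 := by simp [map_div₀, map_ofNat, map_neg]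
  have n4 : (cK (-21/16) : K (W8 k)) = -21/16 := by simp [map_div₀, map_ofNat, map_neg]
  have n5 : (cK (3/2) : K (W8 k)) = 3/2 := by simp [map_div₀, map_ofNat, map_neg]
  have n6 : (cK (15) : K (W8 k)) = 15 := by simp [map_div₀, map_ofNat, map_neg]
  have n7 : (cK (-21/4) : K (W8 k)) = -21/4 := by simp [map_div₀, map_ofNat, map_neg]
  have hr : ∀ j m, (cK (rr k j m) : K (W8 k)) = ((rrz j m : ℤ) : K (W8 k)) / 2048 := by
    intro j m
    unfold rr
    first | rw [map_div₀, map_intCast, map_ofNat] | rw [map_div₀, map_intCast, map_one]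
  rw [n0, n1] at he h1 h2
  unfold ld
  rw [← mul_div_assoc, div_eq_iff hu, dv_uK, NV_eq]
  simp only [hr]
  unfold qK
  rw [n0, n1, n2, n3, n4]
  show xK * (xK - (105/4)) * (xK - (21/2)) * (xK - (15/4)) * (xK - (105)) * (xK - (-21/16)) * dx =
      (((0 : ℤ) : K (W8 k)) / 2048 + ((291721500 : ℤ) : K (W8 k)) / 2048 * xK +
      ((0 : ℤ) : K (W8 k)) / 2048 * yK + ((219485700 : ℤ) : K (W8 k)) / 2048 * xK ^ 2 +
      ((-22226400 : ℤ) : K (W8 k)) / 2048 * (xK * yK) + ((-32916240 : ℤ) : K (W8 k)) / 2048 * xK ^ 3 +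
      ((-8678880 : ℤ) : K (W8 k)) / 2048 * (xK ^ 2 * yK) + ((-20491632 : ℤ) : K (W8 k)) / 2048 * xK ^ 4 +
      ((5648832 : ℤ) : K (W8 k)) / 2048 * (xK ^ 3 * yK) + ((2240832 : ℤ) : K (W8 k)) / 2048 * xK ^ 5 +
      ((-483072 : ℤ) : K (W8 k)) / 2048 * (xK ^ 4 * yK) + ((-19456 : ℤ) : K (W8 k)) / 2048 * xK ^ 6 +
      ((4096 : ℤ) : K (W8 k)) / 2048 * (xK ^ 5 * yK)) * (xK - cK (105/4))
  push_cast
  rw [h1, n0]
  ring


lemma ld_uK2 [CharZero k] : qK k * ld (uK k 2) = NV (rr k 2) := by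
  have : CharZero (K (W8 k)) :=
    charZero_of_injective_algebraMap (algebraMap k (K (W8 k))).injective
  have hu := uK_ne k 2
  have he := eqW8 k
  have h1 := hdx k
  have h2 := hdy k
  have n0 : (cK (105/4) : K (W8 k)) = 105/4 := by simp [map_div₀, map_ofNat, map_neg]
  have n1 : (cK (21/2) : K (W8 k)) = 21/2 := by simp [map_div₀, map_ofNat, map_neg]
  have n2 : (cK (15/4) : K (W8 k)) = 15/4 := by simp [map_div₀, map_ofNat, map_neg]
  have n3 : (cK (105) : K (W8 k)) = 105 := by simp [map_div₀, map_ofNat, map_neg]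
  have n4 : (cK (-21/16) : K (W8 k)) = -21/16 := by simp [map_div₀, map_ofNat, map_neg]
  have n5 : (cK (3/2) : K (W8 k)) = 3/2 := by simp [map_div₀, map_ofNat, map_neg]
  have n6 : (cK (15) : K (W8 k)) = 15 := by simp [map_div₀, map_ofNat, map_neg]
  have n7 : (cK (-21/4) : K (W8 k)) = -21/4 := by simp [map_div₀, map_ofNat, map_neg]
  have hr : ∀ j m, (cK (rr k j m) : K (W8 k)) = ((rrz j m : ℤ) : K (W8 k)) / 2048 := by
    intro j m
    unfold rr
    first | rw [map_div₀, map_intCast, map_ofNat] | rw [map_div₀, map_intCast, map_one]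
  rw [n0, n1] at he h1 h2
  unfold ld
  rw [← mul_div_assoc, div_eq_iff hu, dv_uK, NV_eq]
  simp only [hr]
  unfold qK
  rw [n0, n1, n2, n3, n4]
  show xK * (xK - (105/4)) * (xK - (21/2)) * (xK - (15/4)) * (xK - (105)) * (xK - (-21/16)) * dx =
      (((0 : ℤ) : K (W8 k)) / 2048 + ((729303750 : ℤ) : K (W8 k)) / 2048 * xK +
      ((0 : ℤ) : K (W8 k)) / 2048 * yK + ((590388750 : ℤ) : K (W8 k)) / 2048 * xK ^ 2 +
      ((-55566000 : ℤ) : K (W8 k)) / 2048 * (xK * yK) + ((-46966500 : ℤ) : K (W8 k)) / 2048 * xK ^ 3 +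
      ((-24872400 : ℤ) : K (W8 k)) / 2048 * (xK ^ 2 * yK) + ((-52567200 : ℤ) : K (W8 k)) / 2048 * xK ^ 4 +
      ((12579840 : ℤ) : K (W8 k)) / 2048 * (xK ^ 3 * yK) + ((2547264 : ℤ) : K (W8 k)) / 2048 * xK ^ 5 +
      ((-547584 : ℤ) : K (W8 k)) / 2048 * (xK ^ 4 * yK) + ((-19456 : ℤ) : K (W8 k)) / 2048 * xK ^ 6 +
      ((4096 : ℤ) : K (W8 k)) / 2048 * (xK ^ 5 * yK)) * (xK - cK (21/2))
  push_cast
  rw [h1, n1]
  ring


lemma ld_uK3 [CharZero k] : qK k * ld (uK k 3) = NV (rr k 3) := by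
  have : CharZero (K (W8 k)) :=
    charZero_of_injective_algebraMap (algebraMap k (K (W8 k))).injective
  have hu := uK_ne k 3
  have he := eqW8 k
  have h1 := hdx k
  have h2 := hdy k
  have n0 : (cK (105/4) : K (W8 k)) = 105/4 := by simp [map_div₀, map_ofNat, map_neg]
  have n1 : (cK (21/2) : K (W8 k)) = 21/2 := by simp [map_div₀, map_ofNat, map_neg]
  have n2 : (cK (15/4) : K (W8 k)) = 15/4 := by simp [map_div₀, map_ofNat, map_neg]
  have n3 : (cK (105) : K (W8 k)) = 105 := by simp [map_div₀, map_ofNat, map_neg]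
  have n4 : (cK (-21/16) : K (W8 k)) = -21/16 := by simp [map_div₀, map_ofNat, map_neg]
  have n5 : (cK (3/2) : K (W8 k)) = 3/2 := by simp [map_div₀, map_ofNat, map_neg]
  have n6 : (cK (15) : K (W8 k)) = 15 := by simp [map_div₀, map_ofNat, map_neg]
  have n7 : (cK (-21/4) : K (W8 k)) = -21/4 := by simp [map_div₀, map_ofNat, map_neg]
  have hr : ∀ j m, (cK (rr k j m) : K (W8 k)) = ((rrz j m : ℤ) : K (W8 k)) / 2048 := by
    intro j m
    unfold rr
    first | rw [map_div₀, map_intCast, map_ofNat] | rw [map_div₀, map_intCast, map_one]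
  rw [n0, n1] at he h1 h2
  unfold ld
  rw [← mul_div_assoc, div_eq_iff hu, dv_uK, NV_eq]
  simp only [hr]
  unfold qK
  rw [n0, n1, n2, n3, n4]
  show xK * (xK - (105/4)) * (xK - (21/2)) * (xK - (15/4)) * (xK - (105)) * (xK - (-21/16)) * dx =
      (((0 : ℤ) : K (W8 k)) / 2048 + ((2042050500 : ℤ) : K (W8 k)) / 2048 * xK +
      ((0 : ℤ) : K (W8 k)) / 2048 * yK + ((2003154300 : ℤ) : K (W8 k)) / 2048 * xK ^ 2 +
      ((-155584800 : ℤ) : K (W8 k)) / 2048 * (xK * yK) + ((245231280 : ℤ) : K (W8 k)) / 2048 * xK ^ 3 +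
      ((-96314400 : ℤ) : K (W8 k)) / 2048 * (xK ^ 2 * yK) + ((-69268752 : ℤ) : K (W8 k)) / 2048 * xK ^ 4 +
      ((16172352 : ℤ) : K (W8 k)) / 2048 * (xK ^ 3 * yK) + ((2678592 : ℤ) : K (W8 k)) / 2048 * xK ^ 5 +
      ((-575232 : ℤ) : K (W8 k)) / 2048 * (xK ^ 4 * yK) + ((-19456 : ℤ) : K (W8 k)) / 2048 * xK ^ 6 +
      ((4096 : ℤ) : K (W8 k)) / 2048 * (xK ^ 5 * yK)) * (xK - cK (15/4))
  push_cast
  rw [h1, n2]
  ring


lemma ld_uK4 [CharZero k] : qK k * ld (uK k 4) = NV (rr k 4) := by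
  have : CharZero (K (W8 k)) :=
    charZero_of_injective_algebraMap (algebraMap k (K (W8 k))).injective
  have hu := uK_ne k 4
  have he := eqW8 k
  have h1 := hdx k
  have h2 := hdy k
  have n0 : (cK (105/4) : K (W8 k)) = 105/4 := by simp [map_div₀, map_ofNat, map_neg]
  have n1 : (cK (21/2) : K (W8 k)) = 21/2 := by simp [map_div₀, map_ofNat, map_neg]
  have n2 : (cK (15/4) : K (W8 k)) = 15/4 := by simp [map_div₀, map_ofNat, map_neg]
  have n3 : (cK (105) : K (W8 k)) = 105 := by simp [map_div₀, map_ofNat, map_neg]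
  have n4 : (cK (-21/16) : K (W8 k)) = -21/16 := by simp [map_div₀, map_ofNat, map_neg]
  have n5 : (cK (3/2) : K (W8 k)) = 3/2 := by simp [map_div₀, map_ofNat, map_neg]
  have n6 : (cK (15) : K (W8 k)) = 15 := by simp [map_div₀, map_ofNat, map_neg]
  have n7 : (cK (-21/4) : K (W8 k)) = -21/4 := by simp [map_div₀, map_ofNat, map_neg]
  have hr : ∀ j m, (cK (rr k j m) : K (W8 k)) = ((rrz j m : ℤ) : K (W8 k)) / 2048 := by
    intro j m
    unfold rr
    first | rw [map_div₀, map_intCast, map_ofNat] | rw [map_div₀, map_intCast, map_one]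
  rw [n0, n1] at he h1 h2
  unfold ld
  rw [← mul_div_assoc, div_eq_iff hu, dv_uK, NV_eq]
  simp only [hr]
  unfold qK
  rw [n0, n1, n2, n3, n4]
  show xK * (xK - (105/4)) * (xK - (21/2)) * (xK - (15/4)) * (xK - (105)) * (xK - (-21/16)) * dx =
      (((0 : ℤ) : K (W8 k)) / 2048 + ((72930375 : ℤ) : K (W8 k)) / 2048 * xK +
      ((0 : ℤ) : K (W8 k)) / 2048 * yK + ((52787700 : ℤ) : K (W8 k)) / 2048 * xK ^ 2 +
      ((-5556600 : ℤ) : K (W8 k)) / 2048 * (xK * yK) + ((-9816660 : ℤ) : K (W8 k)) / 2048 * xK ^ 3 +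
      ((-2010960 : ℤ) : K (W8 k)) / 2048 * (xK ^ 2 * yK) + ((-4902912 : ℤ) : K (W8 k)) / 2048 * xK ^ 4 +
      ((1475712 : ℤ) : K (W8 k)) / 2048 * (xK ^ 3 * yK) + ((708672 : ℤ) : K (W8 k)) / 2048 * xK ^ 5 +
      ((-160512 : ℤ) : K (W8 k)) / 2048 * (xK ^ 4 * yK) + ((-19456 : ℤ) : K (W8 k)) / 2048 * xK ^ 6 +
      ((4096 : ℤ) : K (W8 k)) / 2048 * (xK ^ 5 * yK)) * (xK - cK (105))
  push_cast
  rw [h1, n3]
  ring


lemma ld_uK5 [CharZero k] : qK k * ld (uK k 5) = NV (rr k 5) := by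
  have : CharZero (K (W8 k)) :=
    charZero_of_injective_algebraMap (algebraMap k (K (W8 k))).injective
  have hu := uK_ne k 5
  have he := eqW8 k
  have h1 := hdx k
  have h2 := hdy k
  have n0 : (cK (105/4) : K (W8 k)) = 105/4 := by simp [map_div₀, map_ofNat, map_neg]
  have n1 : (cK (21/2) : K (W8 k)) = 21/2 := by simp [map_div₀, map_ofNat, map_neg]
  have n2 : (cK (15/4) : K (W8 k)) = 15/4 := by simp [map_div₀, map_ofNat, map_neg]
  have n3 : (cK (105) : K (W8 k)) = 105 := by simp [map_div₀, map_ofNat, map_neg]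
  have n4 : (cK (-21/16) : K (W8 k)) = -21/16 := by simp [map_div₀, map_ofNat, map_neg]
  have n5 : (cK (3/2) : K (W8 k)) = 3/2 := by simp [map_div₀, map_ofNat, map_neg]
  have n6 : (cK (15) : K (W8 k)) = 15 := by simp [map_div₀, map_ofNat, map_neg]
  have n7 : (cK (-21/4) : K (W8 k)) = -21/4 := by simp [map_div₀, map_ofNat, map_neg]
  have hr : ∀ j m, (cK (rr k j m) : K (W8 k)) = ((rrz j m : ℤ) : K (W8 k)) / 2048 := by
    intro j m
    unfold rr
    first | rw [map_div₀, map_intCast, map_ofNat] | rw [map_div₀, map_intCast, map_one]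
  rw [n0, n1] at he h1 h2
  unfold ld
  rw [← mul_div_assoc, div_eq_iff hu, dv_uK, NV_eq]
  simp only [hr]
  unfold qK
  rw [n0, n1, n2, n3, n4]
  show xK * (xK - (105/4)) * (xK - (21/2)) * (xK - (15/4)) * (xK - (105)) * (xK - (-21/16)) * dx =
      (((0 : ℤ) : K (W8 k)) / 2048 + ((-5834430000 : ℤ) : K (W8 k)) / 2048 * xK +
      ((0 : ℤ) : K (W8 k)) / 2048 * yK + ((277830000 : ℤ) : K (W8 k)) / 2048 * xK ^ 2 +
      ((444528000 : ℤ) : K (W8 k)) / 2048 * (xK * yK) + ((613872000 : ℤ) : K (W8 k)) / 2048 * xK ^ 3 +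
      ((-182044800 : ℤ) : K (W8 k)) / 2048 * (xK ^ 2 * yK) + ((-82958400 : ℤ) : K (W8 k)) / 2048 * xK ^ 4 +
      ((19111680 : ℤ) : K (W8 k)) / 2048 * (xK ^ 3 * yK) + ((2777088 : ℤ) : K (W8 k)) / 2048 * xK ^ 5 +
      ((-595968 : ℤ) : K (W8 k)) / 2048 * (xK ^ 4 * yK) + ((-19456 : ℤ) : K (W8 k)) / 2048 * xK ^ 6 +
      ((4096 : ℤ) : K (W8 k)) / 2048 * (xK ^ 5 * yK)) * (xK - cK (-21/16))
  push_cast
  rw [h1, n4]
  ring


lemma ld_uK6 [CharZero k] : qK k * ld (uK k 6) = NV (rr k 6) := by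
  have : CharZero (K (W8 k)) :=
    charZero_of_injective_algebraMap (algebraMap k (K (W8 k))).injective
  have hu := uK_ne k 6
  have he := eqW8 k
  have h1 := hdx k
  have h2 := hdy k
  have n0 : (cK (105/4) : K (W8 k)) = 105/4 := by simp [map_div₀, map_ofNat, map_neg]
  have n1 : (cK (21/2) : K (W8 k)) = 21/2 := by simp [map_div₀, map_ofNat, map_neg]
  have n2 : (cK (15/4) : K (W8 k)) = 15/4 := by simp [map_div₀, map_ofNat, map_neg]
  have n3 : (cK (105) : K (W8 k)) = 105 := by simp [map_div₀, map_ofNat, map_neg]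
  have n4 : (cK (-21/16) : K (W8 k)) = -21/16 := by simp [map_div₀, map_ofNat, map_neg]
  have n5 : (cK (3/2) : K (W8 k)) = 3/2 := by simp [map_div₀, map_ofNat, map_neg]
  have n6 : (cK (15) : K (W8 k)) = 15 := by simp [map_div₀, map_ofNat, map_neg]
  have n7 : (cK (-21/4) : K (W8 k)) = -21/4 := by simp [map_div₀, map_ofNat, map_neg]
  have hr : ∀ j m, (cK (rr k j m) : K (W8 k)) = ((rrz j m : ℤ) : K (W8 k)) / 2048 := by
    intro j m
    unfold rr
    first | rw [map_div₀, map_intCast, map_ofNat] | rw [map_div₀, map_intCast, map_one]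
  rw [n0, n1] at he h1 h2
  unfold ld
  rw [← mul_div_assoc, div_eq_iff hu, dv_uK, NV_eq]
  simp only [hr]
  unfold qK
  rw [n0, n1, n2, n3, n4]
  show xK * (xK - (105/4)) * (xK - (21/2)) * (xK - (15/4)) * (xK - (105)) * (xK - (-21/16)) * dy =
      (((-15315378750 : ℤ) : K (W8 k)) / 2048 + ((-7876480500 : ℤ) : K (W8 k)) / 2048 * xK +
      ((583443000 : ℤ) : K (W8 k)) / 2048 * yK + ((3363132150 : ℤ) : K (W8 k)) / 2048 * xK ^ 2 +
      ((194481000 : ℤ) : K (W8 k)) / 2048 * (xK * yK) + ((231498540 : ℤ) : K (W8 k)) / 2048 * xK ^ 3 +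
      ((-161300160 : ℤ) : K (W8 k)) / 2048 * (xK ^ 2 * yK) + ((-92053584 : ℤ) : K (W8 k)) / 2048 * xK ^ 4 +
      ((21153888 : ℤ) : K (W8 k)) / 2048 * (xK ^ 3 * yK) + ((4938624 : ℤ) : K (W8 k)) / 2048 * xK ^ 5 +
      ((-832128 : ℤ) : K (W8 k)) / 2048 * (xK ^ 4 * yK) + ((-38912 : ℤ) : K (W8 k)) / 2048 * xK ^ 6 +
      ((6144 : ℤ) : K (W8 k)) / 2048 * (xK ^ 5 * yK)) * (yK)
  push_cast
  rw [h2]
  linear_combination ((-72930375/256) * xK ^ 0 + (-24310125/256) * xK ^ 1 + (2520315/32) * xK ^ 2 + (-661059/64) * xK ^ 3 + (6501/16) * xK ^ 4 + (-3) * xK ^ 5) * he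


lemma ld_uK7 [CharZero k] : qK k * ld (uK k 7) = NV (rr k 7) := by
  have : CharZero (K (W8 k)) :=
    charZero_of_injective_algebraMap (algebraMap k (K (W8 k))).injective
  have hu := uK_ne k 7
  have he := eqW8 k
  have h1 := hdx k
  have h2 := hdy k
  have n0 : (cK (105/4) : K (W8 k)) = 105/4 := by simp [map_div₀, map_ofNat, map_neg]
  have n1 : (cK (21/2) : K (W8 k)) = 21/2 := by simp [map_div₀, map_ofNat, map_neg]
  have n2 : (cK (15/4) : K (W8 k)) = 15/4 := by simp [map_div₀, map_ofNat, map_neg]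
  have n3 : (cK (105) : K (W8 k)) = 105 := by simp [map_div₀, map_ofNat, map_neg]
  have n4 : (cK (-21/16) : K (W8 k)) = -21/16 := by simp [map_div₀, map_ofNat, map_neg]
  have n5 : (cK (3/2) : K (W8 k)) = 3/2 := by simp [map_div₀, map_ofNat, map_neg]
  have n6 : (cK (15) : K (W8 k)) = 15 := by simp [map_div₀, map_ofNat, map_neg]
  have n7 : (cK (-21/4) : K (W8 k)) = -21/4 := by simp [map_div₀, map_ofNat, map_neg]
  have hr : ∀ j m, (cK (rr k j m) : K (W8 k)) = ((rrz j m : ℤ) : K (W8 k)) / 2048 := by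
    intro j m
    unfold rr
    first | rw [map_div₀, map_intCast, map_ofNat] | rw [map_div₀, map_intCast, map_one]
  rw [n0, n1] at he h1 h2
  unfold ld
  rw [← mul_div_assoc, div_eq_iff hu, dv_uK, NV_eq]
  simp only [hr]
  unfold qK
  rw [n0, n1, n2, n3, n4]
  show xK * (xK - (105/4)) * (xK - (21/2)) * (xK - (15/4)) * (xK - (105)) * (xK - (-21/16)) * (dy - (21/2) * dx) =
      (((-7657689375 : ℤ) : K (W8 k)) / 2048 + ((-4740474375 : ℤ) : K (W8 k)) / 2048 * xK +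
      ((291721500 : ℤ) : K (W8 k)) / 2048 * yK + ((1382204250 : ℤ) : K (W8 k)) / 2048 * xK ^ 2 +
      ((63900900 : ℤ) : K (W8 k)) / 2048 * (xK * yK) + ((327442500 : ℤ) : K (W8 k)) / 2048 * xK ^ 3 +
      ((-95256000 : ℤ) : K (W8 k)) / 2048 * (xK ^ 2 * yK) + ((-65836512 : ℤ) : K (W8 k)) / 2048 * xK ^ 4 +
      ((18279072 : ℤ) : K (W8 k)) / 2048 * (xK ^ 3 * yK) + ((2424000 : ℤ) : K (W8 k)) / 2048 * xK ^ 5 +
      ((-810624 : ℤ) : K (W8 k)) / 2048 * (xK ^ 4 * yK) + ((-17408 : ℤ) : K (W8 k)) / 2048 * xK ^ 6 +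
      ((6144 : ℤ) : K (W8 k)) / 2048 * (xK ^ 5 * yK)) * (yK - cK (21/2) * xK)
  push_cast
  rw [h1, h2, n1]
  linear_combination ((-72930375/512) * xK ^ 0 + (-15975225/512) * xK ^ 1 + (1488375/32) * xK ^ 2 + (-571221/64) * xK ^ 3 + (6333/16) * xK ^ 4 + (-3) * xK ^ 5) * he


lemma ld_uK8 [CharZero k] : qK k * ld (uK k 8) = NV (rr k 8) := by
  have : CharZero (K (W8 k)) :=
    charZero_of_injective_algebraMap (algebraMap k (K (W8 k))).injective
  have hu := uK_ne k 8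
  have he := eqW8 k
  have h1 := hdx k
  have h2 := hdy k
  have n0 : (cK (105/4) : K (W8 k)) = 105/4 := by simp [map_div₀, map_ofNat, map_neg]
  have n1 : (cK (21/2) : K (W8 k)) = 21/2 := by simp [map_div₀, map_ofNat, map_neg]
  have n2 : (cK (15/4) : K (W8 k)) = 15/4 := by simp [map_div₀, map_ofNat, map_neg]
  have n3 : (cK (105) : K (W8 k)) = 105 := by simp [map_div₀, map_ofNat, map_neg]
  have n4 : (cK (-21/16) : K (W8 k)) = -21/16 := by simp [map_div₀, map_ofNat, map_neg]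
  have n5 : (cK (3/2) : K (W8 k)) = 3/2 := by simp [map_div₀, map_ofNat, map_neg]
  have n6 : (cK (15) : K (W8 k)) = 15 := by simp [map_div₀, map_ofNat, map_neg]
  have n7 : (cK (-21/4) : K (W8 k)) = -21/4 := by simp [map_div₀, map_ofNat, map_neg]
  have hr : ∀ j m, (cK (rr k j m) : K (W8 k)) = ((rrz j m : ℤ) : K (W8 k)) / 2048 := by
    intro j m
    unfold rr
    first | rw [map_div₀, map_intCast, map_ofNat] | rw [map_div₀, map_intCast, map_one]
  rw [n0, n1] at he h1 h2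
  unfold ld
  rw [← mul_div_assoc, div_eq_iff hu, dv_uK, NV_eq]
  simp only [hr]
  unfold qK
  rw [n0, n1, n2, n3, n4]
  show xK * (xK - (105/4)) * (xK - (21/2)) * (xK - (15/4)) * (xK - (105)) * (xK - (-21/16)) * (dy - cK (3/2) * dx) =
      (((-7657689375 : ℤ) : K (W8 k)) / 2048 + ((-364651875 : ℤ) : K (W8 k)) / 2048 * xK +
      ((291721500 : ℤ) : K (W8 k)) / 2048 * yK + ((4341093750 : ℤ) : K (W8 k)) / 2048 * xK ^ 2 +
      ((-2778300 : ℤ) : K (W8 k)) / 2048 * (xK * yK) + ((-15479100 : ℤ) : K (W8 k)) / 2048 * xK ^ 3 +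
      ((-139073760 : ℤ) : K (W8 k)) / 2048 * (xK ^ 2 * yK) + ((-106267392 : ℤ) : K (W8 k)) / 2048 * xK ^ 4 +
      ((23540832 : ℤ) : K (W8 k)) / 2048 * (xK ^ 3 * yK) + ((4772928 : ℤ) : K (W8 k)) / 2048 * xK ^ 5 +
      ((-856704 : ℤ) : K (W8 k)) / 2048 * (xK ^ 4 * yK) + ((-35840 : ℤ) : K (W8 k)) / 2048 * xK ^ 6 +
      ((6144 : ℤ) : K (W8 k)) / 2048 * (xK ^ 5 * yK)) * (yK - cK (3/2) * xK)
  push_cast
  rw [h1, h2, n5]
  linear_combination ((-72930375/512) * xK ^ 0 + (694575/512) * xK ^ 1 + (4346055/64) * xK ^ 2 + (-735651/64) * xK ^ 3 + (6693/16) * xK ^ 4 + (-3) * xK ^ 5) * he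


lemma ld_uK9 [CharZero k] : qK k * ld (uK k 9) = NV (rr k 9) := by
  have : CharZero (K (W8 k)) :=
    charZero_of_injective_algebraMap (algebraMap k (K (W8 k))).injective
  have hu := uK_ne k 9
  have he := eqW8 k
  have h1 := hdx k
  have h2 := hdy k
  have n0 : (cK (105/4) : K (W8 k)) = 105/4 := by simp [map_div₀, map_ofNat, map_neg]
  have n1 : (cK (21/2) : K (W8 k)) = 21/2 := by simp [map_div₀, map_ofNat, map_neg]
  have n2 : (cK (15/4) : K (W8 k)) = 15/4 := by simp [map_div₀, map_ofNat, map_neg]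
  have n3 : (cK (105) : K (W8 k)) = 105 := by simp [map_div₀, map_ofNat, map_neg]
  have n4 : (cK (-21/16) : K (W8 k)) = -21/16 := by simp [map_div₀, map_ofNat, map_neg]
  have n5 : (cK (3/2) : K (W8 k)) = 3/2 := by simp [map_div₀, map_ofNat, map_neg]
  have n6 : (cK (15) : K (W8 k)) = 15 := by simp [map_div₀, map_ofNat, map_neg]
  have n7 : (cK (-21/4) : K (W8 k)) = -21/4 := by simp [map_div₀, map_ofNat, map_neg]
  have hr : ∀ j m, (cK (rr k j m) : K (W8 k)) = ((rrz j m : ℤ) : K (W8 k)) / 2048 := by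
    intro j m
    unfold rr
    first | rw [map_div₀, map_intCast, map_ofNat] | rw [map_div₀, map_intCast, map_one]
  rw [n0, n1] at he h1 h2
  unfold ld
  rw [← mul_div_assoc, div_eq_iff hu, dv_uK, NV_eq]
  simp only [hr]
  unfold qK
  rw [n0, n1, n2, n3, n4]
  show xK * (xK - (105/4)) * (xK - (21/2)) * (xK - (15/4)) * (xK - (105)) * (xK - (-21/16)) * (dy - cK (15) * dx) =
      (((-7657689375 : ℤ) : K (W8 k)) / 2048 + ((-4959265500 : ℤ) : K (W8 k)) / 2048 * xK +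
      ((291721500 : ℤ) : K (W8 k)) / 2048 * yK + ((1365534450 : ℤ) : K (W8 k)) / 2048 * xK ^ 2 +
      ((22226400 : ℤ) : K (W8 k)) / 2048 * (xK * yK) + ((434605500 : ℤ) : K (W8 k)) / 2048 * xK ^ 3 +
      ((-127643040 : ℤ) : K (W8 k)) / 2048 * (xK ^ 2 * yK) + ((-71530704 : ℤ) : K (W8 k)) / 2048 * xK ^ 4 +
      ((17988768 : ℤ) : K (W8 k)) / 2048 * (xK ^ 3 * yK) + ((2244864 : ℤ) : K (W8 k)) / 2048 * xK ^ 5 +
      ((-663168 : ℤ) : K (W8 k)) / 2048 * (xK ^ 4 * yK) + ((-8192 : ℤ) : K (W8 k)) / 2048 * xK ^ 6 +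
      ((6144 : ℤ) : K (W8 k)) / 2048 * (xK ^ 5 * yK)) * (yK - cK (15) * xK)
  push_cast
  rw [h1, h2, n6]
  linear_combination ((-72930375/512) * xK ^ 0 + (-694575/64) * xK ^ 1 + (3988845/64) * xK ^ 2 + (-562149/64) * xK ^ 3 + (5181/16) * xK ^ 4 + (-3) * xK ^ 5) * he


lemma ld_uK10 [CharZero k] : qK k * ld (uK k 10) = NV (rr k 10) := by
  have : CharZero (K (W8 k)) :=
    charZero_of_injective_algebraMap (algebraMap k (K (W8 k))).injective
  have hu := uK_ne k 10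
  have he := eqW8 k
  have h1 := hdx k
  have h2 := hdy k
  have n0 : (cK (105/4) : K (W8 k)) = 105/4 := by simp [map_div₀, map_ofNat, map_neg]
  have n1 : (cK (21/2) : K (W8 k)) = 21/2 := by simp [map_div₀, map_ofNat, map_neg]
  have n2 : (cK (15/4) : K (W8 k)) = 15/4 := by simp [map_div₀, map_ofNat, map_neg]
  have n3 : (cK (105) : K (W8 k)) = 105 := by simp [map_div₀, map_ofNat, map_neg]
  have n4 : (cK (-21/16) : K (W8 k)) = -21/16 := by simp [map_div₀, map_ofNat, map_neg]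
  have n5 : (cK (3/2) : K (W8 k)) = 3/2 := by simp [map_div₀, map_ofNat, map_neg]
  have n6 : (cK (15) : K (W8 k)) = 15 := by simp [map_div₀, map_ofNat, map_neg]
  have n7 : (cK (-21/4) : K (W8 k)) = -21/4 := by simp [map_div₀, map_ofNat, map_neg]
  have hr : ∀ j m, (cK (rr k j m) : K (W8 k)) = ((rrz j m : ℤ) : K (W8 k)) / 2048 := by
    intro j m
    unfold rr
    first | rw [map_div₀, map_intCast, map_ofNat] | rw [map_div₀, map_intCast, map_one]
  rw [n0, n1] at he h1 h2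
  unfold ld
  rw [← mul_div_assoc, div_eq_iff hu, dv_uK, NV_eq]
  simp only [hr]
  unfold qK
  rw [n0, n1, n2, n3, n4]
  show xK * (xK - (105/4)) * (xK - (21/2)) * (xK - (15/4)) * (xK - (105)) * (xK - (-21/16)) * (dy - cK (-21/4) * dx) =
      (((-7657689375 : ℤ) : K (W8 k)) / 2048 + ((-6928385625 : ℤ) : K (W8 k)) / 2048 * xK +
      ((291721500 : ℤ) : K (W8 k)) / 2048 * yK + ((1778112000 : ℤ) : K (W8 k)) / 2048 * xK ^ 2 +
      ((322282800 : ℤ) : K (W8 k)) / 2048 * (xK * yK) + ((434605500 : ℤ) : K (W8 k)) / 2048 * xK ^ 3 +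
      ((-170508240 : ℤ) : K (W8 k)) / 2048 * (xK ^ 2 * yK) + ((-86036832 : ℤ) : K (W8 k)) / 2048 * xK ^ 4 +
      ((19458432 : ℤ) : K (W8 k)) / 2048 * (xK ^ 3 * yK) + ((3867456 : ℤ) : K (W8 k)) / 2048 * xK ^ 5 +
      ((-673536 : ℤ) : K (W8 k)) / 2048 * (xK ^ 4 * yK) + ((-49664 : ℤ) : K (W8 k)) / 2048 * xK ^ 6 +
      ((6144 : ℤ) : K (W8 k)) / 2048 * (xK ^ 5 * yK)) * (yK - cK (-21/4) * xK)
  push_cast
  rw [h1, h2, n7]
  linear_combination ((-72930375/512) * xK ^ 0 + (-20142675/128) * xK ^ 1 + (10656765/128) * xK ^ 2 + (-152019/16) * xK ^ 3 + (2631/8) * xK ^ 4 + (-3) * xK ^ 5) * he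


lemma ld_uK [CharZero k] (j : Fin 11) : qK k * ld (uK k j) = NV (rr k j) := by
  fin_cases j
  · exact ld_uK0 k
  · exact ld_uK1 k
  · exact ld_uK2 k
  · exact ld_uK3 k
  · exact ld_uK4 k
  · exact ld_uK5 k
  · exact ld_uK6 k
  · exact ld_uK7 k
  · exact ld_uK8 k
  · exact ld_uK9 k
  · exact ld_uK10 k


/-! ### monomials -/

/-- a monomial -/
noncomputable def mo (n : Fin 11 → ℤ) : K (W8 k) := ∏ j, uK k j ^ n j

/-- the coefficients of `q f'/f` for a monomial `f` -/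
noncomputable def RR (n : Fin 11 → ℤ) : Fin 13 → k := ∑ j, ((n j : ℤ) : k) • rr k j

lemma LC_mo (n : Fin 11 → ℤ) : LC (mo k n) (- Dn n 0) 1 := by
  have h := LC_prod Finset.univ (z := fun j => uK k j ^ n j) (n := fun j => n j * (- oU j 0))
    (a := fun j => (1 : k) ^ n j) (fun j _ => (LC_uK k j).zpow (n j))
  simp only [one_zpow, Finset.prod_const_one] at h
  have e : - Dn n 0 = ∑ j, n j * (- oU j 0) := by
    unfold Dn; rw [← Finset.sum_neg_distrib]; exact Finset.sum_congr rfl fun j _ => by ring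
  rw [e]; exact h

lemma mo_ne (n : Fin 11 → ℤ) : mo k n ≠ 0 := (LC_mo k n).ne

lemma ld_prod {ι : Type*} (s : Finset ι) (z : ι → K (W8 k)) (hz : ∀ i ∈ s, z i ≠ 0) :
    ld (∏ i ∈ s, z i) = ∑ i ∈ s, ld (z i) := by
  classical
  induction s using Finset.induction_on with
  | empty => simpa using ld_one
  | insert i s hi ih =>
    have h1 := hz i (Finset.mem_insert_self _ _)
    have h2 : ∀ j ∈ s, z j ≠ 0 := fun j hj => hz j (Finset.mem_insert_of_mem hj)
    rw [Finset.prod_insert hi, Finset.sum_insert hi, ld_mul h1 (Finset.prod_ne_zero_iff.mpr h2),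
      ih h2]

variable [CharZero k]

lemma ld_mo (n : Fin 11 → ℤ) : qK k * ld (mo k n) = NV (RR k n) := by
  unfold mo RR
  rw [ld_prod k _ _ (fun j _ => zpow_ne_zero _ (uK_ne k j)), NV_sum, Finset.mul_sum]
  refine Finset.sum_congr rfl fun j _ => ?_
  rw [ld_zpow (uK_ne k j), ← ld_uK]
  have : (cK ((n j : ℤ) : k) : K (W8 k)) = ((n j : ℤ) : K (W8 k)) := map_intCast _ _
  rw [this]; ring

lemma RR_top (n : Fin 11 → ℤ) : RR k n 12 = ((- Dn n 0 : ℤ) : k) := by
  unfold RR Dn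
  rw [Finset.sum_apply, ← Finset.sum_neg_distrib]
  push_cast
  refine Finset.sum_congr rfl fun j _ => ?_
  rw [Pi.smul_apply, smul_eq_mul, rr_top]; push_cast; ring

variable {k}

/-- **the orders and values at the origin** -/
theorem bound_K {c₀ c₁ : k} (h0 : c₀ ≠ 0) (h1 : c₁ ≠ 0) {n n' : Fin 11 → ℤ}
    (h : cK c₀ * mo k n + cK c₁ * mo k n' = 1) :
    (Dn n 0 = 0 ∧ Dn n' 0 = 0) ∨
    (1 ≤ Dn n 0 ∧ Dn n' 0 = 0 ∧ c₁ = 1 ∧
      ∃ M : Fin 13, ordm M = 13 - Dn n 0 ∧ ∀ m, M < m → RR k n' m = 0) ∨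
    (Dn n 0 = 0 ∧ 1 ≤ Dn n' 0 ∧ c₀ = 1) ∨
    (Dn n 0 = Dn n' 0 ∧ Dn n 0 ≤ -1 ∧ c₀ = - c₁) := by
  have hc0 : (cK c₀ : K (W8 k)) ≠ 0 := ne_of_v (v_c h0)
  have hc1 : (cK c₁ : K (W8 k)) ≠ 0 := ne_of_v (v_c h1)
  have Lf : LC (cK c₀ * mo k n) (- Dn n 0) c₀ := by
    have := (LC_c (W := W8 k) h0).mul (LC_mo k n); rwa [zero_add, mul_one] at this
  have Lg : LC (cK c₁ * mo k n') (- Dn n' 0) c₁ := by
    have := (LC_c (W := W8 k) h1).mul (LC_mo k n'); rwa [zero_add, mul_one] at this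
  have lf : NV (RR k n) = qK k * ld (cK c₀ * mo k n) := by
    rw [ld_mul hc0 (mo_ne _ _), ld_c, zero_add, ld_mo]
  have lg : NV (RR k n') = qK k * ld (cK c₁ * mo k n') := by
    rw [ld_mul hc1 (mo_ne _ _), ld_c, zero_add, ld_mo]
  have top : ∀ {m : Fin 11 → ℤ}, RR k m 12 ≠ 0 ↔ Dn m 0 ≠ 0 := by
    intro m; rw [RR_top]
    constructor
    · intro h h'; apply h; rw [h']; simp
    · intro h h'; apply h; have := Int.cast_eq_zero.mp h'; omega
  rcases wr2 h lf lg Lf.v_eq Lg.v_eq (NV_key _) (NV_key _) (by rw [← NV_sub]; exact NV_key _) with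
    ⟨h2, h3⟩ | ⟨i, j, l, hi, hj, hl, e1, e2, h2⟩
  · left
    constructor
    · by_contra hne
      exact top.mpr hne (by rw [NV_eq_zero h2]; rfl)
    · by_contra hne
      exact top.mpr hne (by rw [NV_eq_zero h3]; rfl)
  · have val1 : Dn n 0 = 0 → Dn n' 0 ≥ 1 → c₀ = 1 := by
      intro a1 a2
      rw [a1, neg_zero] at Lf
      refine Lf.unique LC_one ?_
      have : cK c₀ * mo k n - 1 = - (cK c₁ * mo k n') := by rw [← h]; ring
      rw [this, Valuation.map_neg, Lg.v_eq, ← exp_zero, exp_lt_exp]; omega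
    have val2 : Dn n' 0 = 0 → Dn n 0 ≥ 1 → c₁ = 1 := by
      intro a1 a2
      rw [a1, neg_zero] at Lg
      refine Lg.unique LC_one ?_
      have : cK c₁ * mo k n' - 1 = - (cK c₀ * mo k n) := by rw [← h]; ring
      rw [this, Valuation.map_neg, Lf.v_eq, ← exp_zero, exp_lt_exp]; omega
    have val3 : Dn n 0 = Dn n' 0 → Dn n 0 ≤ -1 → c₀ = - c₁ := by
      intro a1 a2
      have L1 := Lf.div Lg
      rw [a1, sub_self] at L1
      have L2 : LC (-1 : K (W8 k)) 0 (-1) := by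
        have := LC_c (W := W8 k) (a := -1) (neg_ne_zero.mpr one_ne_zero)
        rwa [map_neg, map_one] at this
      have h3 : c₀ / c₁ = -1 := by
        refine L1.unique L2 ?_
        have hg := Lg.ne
        have : cK c₀ * mo k n / (cK c₁ * mo k n') - (-1) = 1 / (cK c₁ * mo k n') := by
          rw [sub_neg_eq_add, div_add_one hg, h]
        rw [this, map_div₀, map_one, Lg.v_eq, one_div, ← exp_neg, ← exp_zero, exp_lt_exp]; omega
      rw [div_eq_iff h1] at h3; rw [h3]; ring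
    rcases h2 with h2 | h2 | h2 | h2
    · right; right; right
      exact ⟨by omega, by omega, val3 (by omega) (by omega)⟩
    · left; omega
    · right; left
      refine ⟨by omega, by omega, val2 (by omega) (by omega), ?_⟩
      have t0 : RR k n' 12 = 0 := by rw [RR_top, show Dn n' 0 = 0 by omega]; simp
      have t1 : RR k n 12 ≠ 0 := top.mpr (by omega)
      have l9 : l = 13 := by
        rw [← NV_sub] at hl
        rcases v_NV' (W := W8 k) (RR k n - RR k n') with h3 | ⟨M, hM, hM', hv⟩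
        · rw [h3, NV_zero, map_zero] at hl; exact absurd hl.symm exp_ne_zero
        · rw [hl, exp_inj] at hv
          have : M = 12 := by
            by_contra hne
            have h4 := hM' 12 (lt_of_le_of_ne (Fin.le_last M) hne)
            rw [Pi.sub_apply, t0, sub_zero] at h4
            exact t1 h4
          rw [hv, this]; rfl
      rcases v_NV' (W := W8 k) (RR k n') with h3 | ⟨M, hM, hM', hv⟩
      · rw [h3, NV_zero, map_zero] at hj; exact absurd hj.symm exp_ne_zero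
      · rw [hj, exp_inj] at hv
        exact ⟨M, by omega, hM'⟩
    · right; right; left
      exact ⟨by omega, by omega, val1 (by omega) (by omega)⟩

end K

end Pool.Agent.KYc
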