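import Pool.Agent.Lib_helper72.KYc.B

/-!
# The curve with `b = 105/4`, `c = 21/2`: translations
-/

set_option autoImplicit false
set_option linter.unusedSectionVars false
set_option linter.unusedSimpArgs false
set_option linter.unusedVariables false

namespace Pool.Agent.KYc

open Polynomial WeierstrassCurve.Affine WithZero TN KY KC72
open Pool.Agent.K7 (LC)

section Fd

variable {F : Type*} [Field F] (x y : F)

/-- the generators -/
def G8 : Fin 15 → F := ![x, x - 105/4, x - 21/2, x - 15/4, x - 105, x + 21/16, y, y - 21/2 * x, y - 3/2 * x, y - 15 * x, y + 21/4 * x, 2, 3, 5, 7]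

/-- the units -/
def uF : Fin 11 → F := ![x, x - 105/4, x - 21/2, x - 15/4, x - 105, x + 21/16, y, y - 21/2 * x, y - 3/2 * x, y - 15 * x, y + 21/4 * x]

/-- monomials in the units -/
def M8 (n : Fin 11 → ℤ) : F := ∏ j, uF x y j ^ n j

/-- the first coordinate of `z + P` -/
def nx : F := (105/4) * y / x ^ 2

/-- the second coordinate of `z + P` -/
def ny : F := (105/4) ^ 2 * (x ^ 2 - y) / x ^ 3

end Fd

/-- signs of the leading coefficients of the `X i` -/
def sgn8 : Fin 12 → Bool := ![false, false, false, false, false, false, true, false, false, false, false, true]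

/-- exponents of `2` of the leading coefficients of the `X i` -/
def al : Fin 12 → ℤ := ![0, -2, -2, -1, -2, 0, -4, 0, -2, -1, -2, -2]

/-- exponents of `3` of the leading coefficients of the `X i` -/
def be : Fin 12 → ℤ := ![0, 1, 1, 1, 1, 1, 1, 1, 1, 1, 1, 1]

/-- exponents of `5` of the leading coefficients of the `X i` -/
def ga : Fin 12 → ℤ := ![0, 1, 1, 0, 1, 1, 0, 1, 1, 0, 1, 1]

/-- exponents of `7` of the leading coefficients of the `X i` -/
def de : Fin 12 → ℤ := ![0, 1, 1, 1, 0, 1, 1, 1, 0, 1, 1, 1]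

/-- the `X i` in terms of the generators -/
def Xm (i : Fin 12) : Mo := (sgn8 i, [ex i 0, ex i 1, ex i 2, ex i 3, ex i 4, ex i 5, ex i 6,
  ex i 7, ex i 8, ex i 9, ex i 10, al i, be i, ga i, de i])

/-- a numerator -/
def tA0 : Mo := (false, [0, 0, 0, 0, 0, 0, 1, 0, 0, 0, 0, 0, 1, 1, 1])

/-- a denominator -/
def tB0 : Mo := (false, [2, 0, 0, 0, 0, 0, 0, 0, 0, 0, 0, 2, 0, 0, 0])

/-- a numerator -/
def tA1 : Mo := (true, [0, 0, 0, 0, 0, 0, 1, 1, 0, 0, 0, 0, 1, 1, 1])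

/-- a denominator -/
def tB1 : Mo := (false, [2, 1, 0, 0, 0, 0, 0, 0, 0, 0, 0, 2, 0, 0, 0])

/-- a numerator -/
def tA2 : Mo := (true, [0, 0, 0, 0, 0, 0, 0, 1, 1, 0, 0, 0, 1, 0, 1])

/-- a denominator -/
def tB2 : Mo := (false, [2, 0, 1, 0, 0, 0, 0, 0, 0, 0, 0, 1, 0, 0, 0])

/-- a numerator -/
def tA3 : Mo := (true, [0, 0, 0, 0, 0, 0, 0, 0, 1, 1, 0, 0, 1, 1, 0])

/-- a denominator -/
def tB3 : Mo := (false, [2, 0, 0, 1, 0, 0, 0, 0, 0, 0, 0, 2, 0, 0, 0])

/-- a numerator -/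
def tA4 : Mo := (true, [0, 0, 0, 0, 0, 0, 0, 0, 0, 1, 1, 0, 1, 1, 1])

/-- a denominator -/
def tB4 : Mo := (false, [2, 0, 0, 0, 1, 0, 0, 0, 0, 0, 0, 0, 0, 0, 0])

/-- a numerator -/
def tA5 : Mo := (false, [0, 0, 0, 0, 0, 0, 0, 0, 0, 0, 2, 0, 1, 0, 1])

/-- a denominator -/
def tB5 : Mo := (false, [2, 0, 0, 0, 0, 1, 0, 0, 0, 0, 0, 4, 0, 0, 0])

/-- a numerator -/
def tA6 : Mo := (false, [0, 0, 0, 0, 0, 0, 1, 1, 0, 0, 0, 0, 2, 2, 2])

/-- a denominator -/
def tB6 : Mo := (false, [3, 1, 0, 0, 0, 0, 0, 0, 0, 0, 0, 4, 0, 0, 0])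

/-- a numerator -/
def tA7 : Mo := (true, [0, 0, 0, 0, 0, 0, 1, 1, 1, 0, 0, 0, 2, 1, 2])

/-- a denominator -/
def tB7 : Mo := (false, [3, 1, 1, 0, 0, 0, 0, 0, 0, 0, 0, 3, 0, 0, 0])

/-- a numerator -/
def tA8 : Mo := (true, [0, 0, 0, 0, 0, 0, 0, 1, 1, 1, 0, 0, 2, 1, 1])

/-- a denominator -/
def tB8 : Mo := (false, [3, 0, 1, 1, 0, 0, 0, 0, 0, 0, 0, 3, 0, 0, 0])

/-- a numerator -/
def tA9 : Mo := (true, [0, 0, 0, 0, 0, 0, 0, 0, 1, 1, 1, 0, 2, 2, 1])

/-- a denominator -/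
def tB9 : Mo := (false, [3, 0, 0, 1, 1, 0, 0, 0, 0, 0, 0, 2, 0, 0, 0])

/-- a numerator -/
def tA10 : Mo := (false, [0, 0, 0, 0, 0, 0, 0, 0, 0, 1, 2, 0, 2, 1, 2])

/-- a denominator -/
def tB10 : Mo := (false, [3, 0, 0, 0, 1, 1, 0, 0, 0, 0, 0, 4, 0, 0, 0])

/-- the generators at the next point -/
def T8 : List Mo := [tA0.div tB0, tA1.div tB1, tA2.div tB2, tA3.div tB3, tA4.div tB4, tA5.div tB5,
  tA6.div tB6, tA7.div tB7, tA8.div tB8, tA9.div tB9, tA10.div tB10,
  (false, [0, 0, 0, 0, 0, 0, 0, 0, 0, 0, 0, 1, 0, 0, 0]),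
  (false, [0, 0, 0, 0, 0, 0, 0, 0, 0, 0, 0, 0, 1, 0, 0]),
  (false, [0, 0, 0, 0, 0, 0, 0, 0, 0, 0, 0, 0, 0, 1, 0]),
  (false, [0, 0, 0, 0, 0, 0, 0, 0, 0, 0, 0, 0, 0, 0, 1])]

lemma T8_X : ∀ i : Fin 12, eqM (subst T8 (Xm i)) (Xm (i + 1)) = true := by decide +kernel

section F

variable {k : Type*} [Field k] [CharZero k] {F : Type*} [Field F] [Algebra k F] {x y : F}

include k in
lemma cz : CharZero F := charZero_of_injective_algebraMap (algebraMap k F).injective

variable (k) in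
/-- the leading coefficient of `X i` at the origin -/
def lam (i : Fin 12) : k := (bif sgn8 i then -1 else 1) * 2 ^ al i * 3 ^ be i * 5 ^ ga i * 7 ^ de i

lemma lam_ne (i : Fin 12) : lam k i ≠ 0 := by
  unfold lam
  refine mul_ne_zero (mul_ne_zero (mul_ne_zero (mul_ne_zero ?_ (zpow_ne_zero _ (by norm_num))) (zpow_ne_zero _ (by norm_num))) (zpow_ne_zero _ (by norm_num))) (zpow_ne_zero _ (by norm_num))
  cases sgn8 i <;> simp

variable (k x y) in
/-- the functions `x(z + iP)` -/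
def XF (i : Fin 12) : F := algebraMap k F (lam k i) * M8 x y (ex i)

variable (k x y) in
/-- monomials -/
def mon (e : Fin 12 → ℤ) : F := ∏ i, XF k x y i ^ e i

lemma mapc0 : algebraMap k F (105/4) = 105/4 := by simp [map_div₀, map_ofNat, map_neg]
lemma mapc1 : algebraMap k F (21/2) = 21/2 := by simp [map_div₀, map_ofNat, map_neg]
lemma mapc2 : algebraMap k F (15/4) = 15/4 := by simp [map_div₀, map_ofNat, map_neg]
lemma mapc3 : algebraMap k F (105) = 105 := by simp [map_div₀, map_ofNat, map_neg]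
lemma mapc4 : algebraMap k F (-21/16) = -21/16 := by simp [map_div₀, map_ofNat, map_neg]
lemma mapc5 : algebraMap k F (3/2) = 3/2 := by simp [map_div₀, map_ofNat, map_neg]
lemma mapc6 : algebraMap k F (15) = 15 := by simp [map_div₀, map_ofNat, map_neg]
lemma mapc7 : algebraMap k F (-21/4) = -21/4 := by simp [map_div₀, map_ofNat, map_neg]

lemma io_uK (h : Gen (105/4 : k) (21/2) x y) (j : Fin 11) : TN.io h (uK k j) = uF x y j := by
  fin_cases j
  · show TN.io h xK = x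
    exact io_x h
  · show TN.io h (xK - cK (105/4)) = x - 105/4
    rw [map_sub, io_x, io_c, mapc0]
  · show TN.io h (xK - cK (21/2)) = x - 21/2
    rw [map_sub, io_x, io_c, mapc1]
  · show TN.io h (xK - cK (15/4)) = x - 15/4
    rw [map_sub, io_x, io_c, mapc2]
  · show TN.io h (xK - cK (105)) = x - 105
    rw [map_sub, io_x, io_c, mapc3]
  · show TN.io h (xK - cK (-21/16)) = x + 21/16
    rw [map_sub, io_x, io_c, mapc4]; ring
  · show TN.io h yK = y
    exact io_y h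
  · show TN.io h (yK - cK (21/2) * xK) = y - 21/2 * x
    rw [map_sub, map_mul, io_x, io_y, io_c, mapc1]
  · show TN.io h (yK - cK (3/2) * xK) = y - 3/2 * x
    rw [map_sub, map_mul, io_x, io_y, io_c, mapc5]
  · show TN.io h (yK - cK (15) * xK) = y - 15 * x
    rw [map_sub, map_mul, io_x, io_y, io_c, mapc6]
  · show TN.io h (yK - cK (-21/4) * xK) = y + 21/4 * x
    rw [map_sub, map_mul, io_x, io_y, io_c, mapc7]; ring


lemma uF_ne (h : Gen (105/4 : k) (21/2) x y) (j : Fin 11) : uF x y j ≠ 0 := by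
  rw [← io_uK h]; exact (_root_.map_ne_zero _).mpr (uK_ne k j)

lemma G8_ne (h : Gen (105/4 : k) (21/2) x y) (j : Fin 15) : G8 x y j ≠ 0 := by
  have := cz (k := k) (F := F)
  fin_cases j
  · exact uF_ne h 0
  · exact uF_ne h 1
  · exact uF_ne h 2
  · exact uF_ne h 3
  · exact uF_ne h 4
  · exact uF_ne h 5
  · exact uF_ne h 6
  · exact uF_ne h 7
  · exact uF_ne h 8
  · exact uF_ne h 9
  · exact uF_ne h 10
  · show (2 : F) ≠ 0
    norm_num
  · show (3 : F) ≠ 0
    norm_num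
  · show (5 : F) ≠ 0
    norm_num
  · show (7 : F) ≠ 0
    norm_num

lemma G8l_ne (h : Gen (105/4 : k) (21/2) x y) : ∀ z ∈ List.ofFn (G8 x y), z ≠ 0 := by
  intro z hz
  rw [List.mem_ofFn] at hz
  obtain ⟨i, rfl⟩ := hz
  exact G8_ne h i

lemma ev_G8 (s : Bool) (l : List ℤ) : KC72.ev (List.ofFn (G8 x y)) (s, l) =
    algebraMap k F ((bif s then -1 else 1) * 2 ^ (l.getD 11 0) * 3 ^ (l.getD 12 0) * 5 ^ (l.getD 13 0) * 7 ^ (l.getD 14 0)) *
      M8 x y (fun j => l.getD j.val 0) := by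
  have hs : algebraMap k F (bif s then -1 else 1) = bif s then -1 else 1 := by
    cases s <;> simp
  unfold KC72.ev M8
  rw [evl_ofFn, Fin.prod_univ_castSucc, Fin.prod_univ_castSucc, Fin.prod_univ_castSucc, Fin.prod_univ_castSucc, map_mul, map_mul, map_mul, map_mul,
    map_zpow₀, map_zpow₀, map_zpow₀, map_zpow₀, map_ofNat, map_ofNat, map_ofNat, map_ofNat, hs]
  have e : ∏ i : Fin 11, G8 x y (Fin.castSucc (Fin.castSucc (Fin.castSucc (Fin.castSucc i)))) ^
      (l.getD (Fin.castSucc (Fin.castSucc (Fin.castSucc (Fin.castSucc i)))).val 0) =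
      ∏ j, uF x y j ^ (l.getD j.val 0) := by
    refine Finset.prod_congr rfl fun i _ => ?_
    congr 1
    fin_cases i <;> rfl
  rw [e]
  show (bif s then -1 else 1) * ((∏ j, uF x y j ^ (l.getD j.val 0)) * 2 ^ l.getD 11 0 * 3 ^ l.getD 12 0 * 5 ^ l.getD 13 0 * 7 ^ l.getD 14 0) =
    (bif s then -1 else 1) * 2 ^ l.getD 11 0 * 3 ^ l.getD 12 0 * 5 ^ l.getD 13 0 * 7 ^ l.getD 14 0 *
    (∏ j, uF x y j ^ (l.getD j.val 0))
  ring

lemma XF_ev (i : Fin 12) : XF k x y i = KC72.ev (List.ofFn (G8 x y)) (Xm i) := by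
  unfold Xm
  rw [ev_G8 (k := k)]
  unfold XF lam
  congr 2
  funext j
  fin_cases j <;> rfl

lemma XF_ne (h : Gen (105/4 : k) (21/2) x y) (i : Fin 12) : XF k x y i ≠ 0 := by
  rw [XF_ev]; exact ev_ne (G8l_ne h) _

lemma mon_eq (h : Gen (105/4 : k) (21/2) x y) (e : Fin 12 → ℤ) :
    mon k x y e = algebraMap k F (∏ i, lam k i ^ e i) * M8 x y (NN e) := by
  rw [map_prod]
  unfold mon XF M8
  rw [show (∏ j, uF x y j ^ NN e j) = ∏ i, (∏ j, uF x y j ^ ex i j) ^ e i by
    rw [show (∏ i, (∏ j, uF x y j ^ ex i j) ^ e i) =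
      ∏ i, ∏ j, uF x y j ^ (e i * ex i j) from Finset.prod_congr rfl fun i _ => by
        rw [← Finset.prod_zpow]
        refine Finset.prod_congr rfl fun j _ => ?_
        rw [← zpow_mul, mul_comm], Finset.prod_comm]
    refine Finset.prod_congr rfl fun j _ => ?_
    unfold NN
    have : ∀ (s : Finset (Fin 12)) (a : Fin 12 → ℤ), uF x y j ^ (∑ i ∈ s, a i) =
        ∏ i ∈ s, uF x y j ^ a i := by
      intro s a
      induction s using Finset.induction_on with
      | empty => simp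
      | insert i s hi ih => rw [Finset.sum_insert hi, Finset.prod_insert hi,
          zpow_add₀ (uF_ne h j), ih]
    exact this _ _]
  rw [← Finset.prod_mul_distrib]
  refine Finset.prod_congr rfl fun i _ => ?_
  rw [mul_zpow, map_zpow₀]

lemma io_mo (h : Gen (105/4 : k) (21/2) x y) (n : Fin 11 → ℤ) : TN.io h (mo k n) = M8 x y n := by
  unfold mo M8
  rw [map_prod]
  refine Finset.prod_congr rfl fun j _ => ?_
  rw [map_zpow₀, io_uK]

/-! ### translation -/

lemma Gen.next' (h : Gen (105/4 : k) (21/2) x y) : Gen (105/4 : k) (21/2) (nx x y) (ny x y) := by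
  have h2 := TN.Gen.next (b := (105/4 : k)) (by norm_num) h
  rw [mapc0] at h2
  exact h2

/-- the equation -/
lemma Gen.eq' (h : Gen (105/4 : k) (21/2) x y) : y ^ 2 + (1 - (21/2)) * x * y - (105/4) * y =
    x ^ 3 - (105/4) * x ^ 2 := by
  have h2 := h.eq
  rw [mapc0, mapc1] at h2
  exact h2


lemma next0 (h : Gen (105/4 : k) (21/2) x y) :
    nx x y = KC72.ev (List.ofFn (G8 x y)) (tA0.div tB0) := by
  have := cz (k := k) (F := F)
  have hg := G8l_ne h
  have he := Gen.eq' h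
  have hx : x ≠ 0 := uF_ne h 0
  have vA : KC72.ev (List.ofFn (G8 x y)) tA0 = (105) * (y) ^ 1 := by
    unfold tA0
    rw [ev_G8 (k := k)]
    simp [M8, Fin.prod_univ_succ, uF, zpow_ofNat, map_ofNat]
    all_goals first
      | ring1
      | (left; norm_num; done)
      | (norm_num; done)
      | (norm_num; ring1)
  have vB : KC72.ev (List.ofFn (G8 x y)) tB0 = (4) * (x) ^ 2 := by
    unfold tB0
    rw [ev_G8 (k := k)]
    simp [M8, Fin.prod_univ_succ, uF, zpow_ofNat, map_ofNat]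
    all_goals first
      | ring1
      | (left; norm_num; done)
      | (norm_num; done)
      | (norm_num; ring1)
  have hB : (4) * (x) ^ 2 ≠ 0 := by
    rw [← vB]; exact ev_ne hg _
  have e1 : nx x y = (105/4) * y / x ^ 2 := by
    unfold nx
    field_simp
  rw [ev_div hg, vA, vB, e1, div_eq_div_iff (pow_ne_zero _ hx) hB]
  linear_combination (0) * he


lemma next1 (h : Gen (105/4 : k) (21/2) x y) :
    nx x y - (105/4) = KC72.ev (List.ofFn (G8 x y)) (tA1.div tB1) := by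
  have := cz (k := k) (F := F)
  have hg := G8l_ne h
  have he := Gen.eq' h
  have hx : x ≠ 0 := uF_ne h 0
  have vA : KC72.ev (List.ofFn (G8 x y)) tA1 = (-105) * (y) ^ 1 * (y - 21/2 * x) ^ 1 := by
    unfold tA1
    rw [ev_G8 (k := k)]
    simp [M8, Fin.prod_univ_succ, uF, zpow_ofNat, map_ofNat]
    all_goals first
      | ring1
      | (left; norm_num; done)
      | (norm_num; done)
      | (norm_num; ring1)
  have vB : KC72.ev (List.ofFn (G8 x y)) tB1 = (4) * (x) ^ 2 * (x - 105/4) ^ 1 := by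
    unfold tB1
    rw [ev_G8 (k := k)]
    simp [M8, Fin.prod_univ_succ, uF, zpow_ofNat, map_ofNat]
    all_goals first
      | ring1
      | (left; norm_num; done)
      | (norm_num; done)
      | (norm_num; ring1)
  have hB : (4) * (x) ^ 2 * (x - 105/4) ^ 1 ≠ 0 := by
    rw [← vB]; exact ev_ne hg _
  have e1 : nx x y - (105/4) = ((105/4) * y - (105/4) * x ^ 2) / x ^ 2 := by
    unfold nx
    field_simp
  rw [ev_div hg, vA, vB, e1, div_eq_div_iff (pow_ne_zero _ hx) hB]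
  linear_combination ((105) * x ^ 2 * y ^ 0) * he


lemma next2 (h : Gen (105/4 : k) (21/2) x y) :
    nx x y - (21/2) = KC72.ev (List.ofFn (G8 x y)) (tA2.div tB2) := by
  have := cz (k := k) (F := F)
  have hg := G8l_ne h
  have he := Gen.eq' h
  have hx : x ≠ 0 := uF_ne h 0
  have vA : KC72.ev (List.ofFn (G8 x y)) tA2 = (-21) * (y - 21/2 * x) ^ 1 * (y - 3/2 * x) ^ 1 := by
    unfold tA2
    rw [ev_G8 (k := k)]
    simp [M8, Fin.prod_univ_succ, uF, zpow_ofNat, map_ofNat]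
    all_goals first
      | ring1
      | (left; norm_num; done)
      | (norm_num; done)
      | (norm_num; ring1)
  have vB : KC72.ev (List.ofFn (G8 x y)) tB2 = (2) * (x) ^ 2 * (x - 21/2) ^ 1 := by
    unfold tB2
    rw [ev_G8 (k := k)]
    simp [M8, Fin.prod_univ_succ, uF, zpow_ofNat, map_ofNat]
    all_goals first
      | ring1
      | (left; norm_num; done)
      | (norm_num; done)
      | (norm_num; ring1)
  have hB : (2) * (x) ^ 2 * (x - 21/2) ^ 1 ≠ 0 := by
    rw [← vB]; exact ev_ne hg _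
  have e1 : nx x y - (21/2) = ((105/4) * y - (21/2) * x ^ 2) / x ^ 2 := by
    unfold nx
    field_simp
  rw [ev_div hg, vA, vB, e1, div_eq_div_iff (pow_ne_zero _ hx) hB]
  linear_combination ((21) * x ^ 2 * y ^ 0) * he


lemma next3 (h : Gen (105/4 : k) (21/2) x y) :
    nx x y - (15/4) = KC72.ev (List.ofFn (G8 x y)) (tA3.div tB3) := by
  have := cz (k := k) (F := F)
  have hg := G8l_ne h
  have he := Gen.eq' h
  have hx : x ≠ 0 := uF_ne h 0
  have vA : KC72.ev (List.ofFn (G8 x y)) tA3 = (-15) * (y - 3/2 * x) ^ 1 * (y - 15 * x) ^ 1 := by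
    unfold tA3
    rw [ev_G8 (k := k)]
    simp [M8, Fin.prod_univ_succ, uF, zpow_ofNat, map_ofNat]
    all_goals first
      | ring1
      | (left; norm_num; done)
      | (norm_num; done)
      | (norm_num; ring1)
  have vB : KC72.ev (List.ofFn (G8 x y)) tB3 = (4) * (x) ^ 2 * (x - 15/4) ^ 1 := by
    unfold tB3
    rw [ev_G8 (k := k)]
    simp [M8, Fin.prod_univ_succ, uF, zpow_ofNat, map_ofNat]
    all_goals first
      | ring1
      | (left; norm_num; done)
      | (norm_num; done)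
      | (norm_num; ring1)
  have hB : (4) * (x) ^ 2 * (x - 15/4) ^ 1 ≠ 0 := by
    rw [← vB]; exact ev_ne hg _
  have e1 : nx x y - (15/4) = ((105/4) * y - (15/4) * x ^ 2) / x ^ 2 := by
    unfold nx
    field_simp
  rw [ev_div hg, vA, vB, e1, div_eq_div_iff (pow_ne_zero _ hx) hB]
  linear_combination ((15) * x ^ 2 * y ^ 0) * he


lemma next4 (h : Gen (105/4 : k) (21/2) x y) :
    nx x y - (105) = KC72.ev (List.ofFn (G8 x y)) (tA4.div tB4) := by
  have := cz (k := k) (F := F)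
  have hg := G8l_ne h
  have he := Gen.eq' h
  have hx : x ≠ 0 := uF_ne h 0
  have vA : KC72.ev (List.ofFn (G8 x y)) tA4 = (-105) * (y - 15 * x) ^ 1 * (y + 21/4 * x) ^ 1 := by
    unfold tA4
    rw [ev_G8 (k := k)]
    simp [M8, Fin.prod_univ_succ, uF, zpow_ofNat, map_ofNat]
    all_goals first
      | ring1
      | (left; norm_num; done)
      | (norm_num; done)
      | (norm_num; ring1)
  have vB : KC72.ev (List.ofFn (G8 x y)) tB4 = (1) * (x) ^ 2 * (x - 105) ^ 1 := by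
    unfold tB4
    rw [ev_G8 (k := k)]
    simp [M8, Fin.prod_univ_succ, uF, zpow_ofNat, map_ofNat]
    all_goals first
      | ring1
      | (left; norm_num; done)
      | (norm_num; done)
      | (norm_num; ring1)
  have hB : (1) * (x) ^ 2 * (x - 105) ^ 1 ≠ 0 := by
    rw [← vB]; exact ev_ne hg _
  have e1 : nx x y - (105) = ((105/4) * y - (105) * x ^ 2) / x ^ 2 := by
    unfold nx
    field_simp
  rw [ev_div hg, vA, vB, e1, div_eq_div_iff (pow_ne_zero _ hx) hB]
  linear_combination ((105) * x ^ 2 * y ^ 0) * he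


lemma next5 (h : Gen (105/4 : k) (21/2) x y) :
    nx x y - (-21/16) = KC72.ev (List.ofFn (G8 x y)) (tA5.div tB5) := by
  have := cz (k := k) (F := F)
  have hg := G8l_ne h
  have he := Gen.eq' h
  have hx : x ≠ 0 := uF_ne h 0
  have vA : KC72.ev (List.ofFn (G8 x y)) tA5 = (21) * (y + 21/4 * x) ^ 2 := by
    unfold tA5
    rw [ev_G8 (k := k)]
    simp [M8, Fin.prod_univ_succ, uF, zpow_ofNat, map_ofNat]
    all_goals first
      | ring1
      | (left; norm_num; done)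
      | (norm_num; done)
      | (norm_num; ring1)
  have vB : KC72.ev (List.ofFn (G8 x y)) tB5 = (16) * (x) ^ 2 * (x + 21/16) ^ 1 := by
    unfold tB5
    rw [ev_G8 (k := k)]
    simp [M8, Fin.prod_univ_succ, uF, zpow_ofNat, map_ofNat]
    all_goals first
      | ring1
      | (left; norm_num; done)
      | (norm_num; done)
      | (norm_num; ring1)
  have hB : (16) * (x) ^ 2 * (x + 21/16) ^ 1 ≠ 0 := by
    rw [← vB]; exact ev_ne hg _
  have e1 : nx x y - (-21/16) = ((105/4) * y - (-21/16) * x ^ 2) / x ^ 2 := by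
    unfold nx
    field_simp
  rw [ev_div hg, vA, vB, e1, div_eq_div_iff (pow_ne_zero _ hx) hB]
  linear_combination ((-21) * x ^ 2 * y ^ 0) * he


lemma next6 (h : Gen (105/4 : k) (21/2) x y) :
    ny x y = KC72.ev (List.ofFn (G8 x y)) (tA6.div tB6) := by
  have := cz (k := k) (F := F)
  have hg := G8l_ne h
  have he := Gen.eq' h
  have hx : x ≠ 0 := uF_ne h 0
  have vA : KC72.ev (List.ofFn (G8 x y)) tA6 = (11025) * (y) ^ 1 * (y - 21/2 * x) ^ 1 := by
    unfold tA6
    rw [ev_G8 (k := k)]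
    simp [M8, Fin.prod_univ_succ, uF, zpow_ofNat, map_ofNat]
    all_goals first
      | ring1
      | (left; norm_num; done)
      | (norm_num; done)
      | (norm_num; ring1)
  have vB : KC72.ev (List.ofFn (G8 x y)) tB6 = (16) * (x) ^ 3 * (x - 105/4) ^ 1 := by
    unfold tB6
    rw [ev_G8 (k := k)]
    simp [M8, Fin.prod_univ_succ, uF, zpow_ofNat, map_ofNat]
    all_goals first
      | ring1
      | (left; norm_num; done)
      | (norm_num; done)
      | (norm_num; ring1)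
  have hB : (16) * (x) ^ 3 * (x - 105/4) ^ 1 ≠ 0 := by
    rw [← vB]; exact ev_ne hg _
  have e1 : ny x y = ((105/4) ^ 2 * (x ^ 2 - y)) / x ^ 3 := by
    unfold ny
    field_simp
  rw [ev_div hg, vA, vB, e1, div_eq_div_iff (pow_ne_zero _ hx) hB]
  linear_combination ((-11025) * x ^ 3 * y ^ 0) * he


lemma next7 (h : Gen (105/4 : k) (21/2) x y) :
    ny x y - (21/2) * nx x y = KC72.ev (List.ofFn (G8 x y)) (tA7.div tB7) := by
  have := cz (k := k) (F := F)
  have hg := G8l_ne h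
  have he := Gen.eq' h
  have hx : x ≠ 0 := uF_ne h 0
  have vA : KC72.ev (List.ofFn (G8 x y)) tA7 = (-2205) * (y) ^ 1 * (y - 21/2 * x) ^ 1 * (y - 3/2 * x) ^ 1 := by
    unfold tA7
    rw [ev_G8 (k := k)]
    simp [M8, Fin.prod_univ_succ, uF, zpow_ofNat, map_ofNat]
    all_goals first
      | ring1
      | (left; norm_num; done)
      | (norm_num; done)
      | (norm_num; ring1)
  have vB : KC72.ev (List.ofFn (G8 x y)) tB7 = (8) * (x) ^ 3 * (x - 105/4) ^ 1 * (x - 21/2) ^ 1 := by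
    unfold tB7
    rw [ev_G8 (k := k)]
    simp [M8, Fin.prod_univ_succ, uF, zpow_ofNat, map_ofNat]
    all_goals first
      | ring1
      | (left; norm_num; done)
      | (norm_num; done)
      | (norm_num; ring1)
  have hB : (8) * (x) ^ 3 * (x - 105/4) ^ 1 * (x - 21/2) ^ 1 ≠ 0 := by
    rw [← vB]; exact ev_ne hg _
  have e1 : ny x y - (21/2) * nx x y = ((105/4) ^ 2 * (x ^ 2 - y) - (21/2) * (105/4) * x * y) / x ^ 3 := by
    unfold nx ny
    field_simp
  rw [ev_div hg, vA, vB, e1, div_eq_div_iff (pow_ne_zero _ hx) hB]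
  linear_combination ((231525/4) * x ^ 3 * y ^ 0 + (2205) * x ^ 3 * y ^ 1 + (-11025/2) * x ^ 4 * y ^ 0) * he


lemma next8 (h : Gen (105/4 : k) (21/2) x y) :
    ny x y - (3/2) * nx x y = KC72.ev (List.ofFn (G8 x y)) (tA8.div tB8) := by
  have := cz (k := k) (F := F)
  have hg := G8l_ne h
  have he := Gen.eq' h
  have hx : x ≠ 0 := uF_ne h 0
  have vA : KC72.ev (List.ofFn (G8 x y)) tA8 = (-315) * (y - 21/2 * x) ^ 1 * (y - 3/2 * x) ^ 1 * (y - 15 * x) ^ 1 := by
    unfold tA8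
    rw [ev_G8 (k := k)]
    simp [M8, Fin.prod_univ_succ, uF, zpow_ofNat, map_ofNat]
    all_goals first
      | ring1
      | (left; norm_num; done)
      | (norm_num; done)
      | (norm_num; ring1)
  have vB : KC72.ev (List.ofFn (G8 x y)) tB8 = (8) * (x) ^ 3 * (x - 21/2) ^ 1 * (x - 15/4) ^ 1 := by
    unfold tB8
    rw [ev_G8 (k := k)]
    simp [M8, Fin.prod_univ_succ, uF, zpow_ofNat, map_ofNat]
    all_goals first
      | ring1
      | (left; norm_num; done)
      | (norm_num; done)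
      | (norm_num; ring1)
  have hB : (8) * (x) ^ 3 * (x - 21/2) ^ 1 * (x - 15/4) ^ 1 ≠ 0 := by
    rw [← vB]; exact ev_ne hg _
  have e1 : ny x y - (3/2) * nx x y = ((105/4) ^ 2 * (x ^ 2 - y) - (3/2) * (105/4) * x * y) / x ^ 3 := by
    unfold nx ny
    field_simp
  rw [ev_div hg, vA, vB, e1, div_eq_div_iff (pow_ne_zero _ hx) hB]
  linear_combination ((33075/4) * x ^ 3 * y ^ 0 + (315) * x ^ 3 * y ^ 1 + (-11025/2) * x ^ 4 * y ^ 0) * he


lemma next9 (h : Gen (105/4 : k) (21/2) x y) :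
    ny x y - (15) * nx x y = KC72.ev (List.ofFn (G8 x y)) (tA9.div tB9) := by
  have := cz (k := k) (F := F)
  have hg := G8l_ne h
  have he := Gen.eq' h
  have hx : x ≠ 0 := uF_ne h 0
  have vA : KC72.ev (List.ofFn (G8 x y)) tA9 = (-1575) * (y - 3/2 * x) ^ 1 * (y - 15 * x) ^ 1 * (y + 21/4 * x) ^ 1 := by
    unfold tA9
    rw [ev_G8 (k := k)]
    simp [M8, Fin.prod_univ_succ, uF, zpow_ofNat, map_ofNat]
    all_goals first
      | ring1
      | (left; norm_num; done)
      | (norm_num; done)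
      | (norm_num; ring1)
  have vB : KC72.ev (List.ofFn (G8 x y)) tB9 = (4) * (x) ^ 3 * (x - 15/4) ^ 1 * (x - 105) ^ 1 := by
    unfold tB9
    rw [ev_G8 (k := k)]
    simp [M8, Fin.prod_univ_succ, uF, zpow_ofNat, map_ofNat]
    all_goals first
      | ring1
      | (left; norm_num; done)
      | (norm_num; done)
      | (norm_num; ring1)
  have hB : (4) * (x) ^ 3 * (x - 15/4) ^ 1 * (x - 105) ^ 1 ≠ 0 := by
    rw [← vB]; exact ev_ne hg _
  have e1 : ny x y - (15) * nx x y = ((105/4) ^ 2 * (x ^ 2 - y) - (15) * (105/4) * x * y) / x ^ 3 := by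
    unfold nx ny
    field_simp
  rw [ev_div hg, vA, vB, e1, div_eq_div_iff (pow_ne_zero _ hx) hB]
  linear_combination ((165375/4) * x ^ 3 * y ^ 0 + (1575) * x ^ 3 * y ^ 1 + (-11025/4) * x ^ 4 * y ^ 0) * he


lemma next10 (h : Gen (105/4 : k) (21/2) x y) :
    ny x y - (-21/4) * nx x y = KC72.ev (List.ofFn (G8 x y)) (tA10.div tB10) := by
  have := cz (k := k) (F := F)
  have hg := G8l_ne h
  have he := Gen.eq' h
  have hx : x ≠ 0 := uF_ne h 0
  have vA : KC72.ev (List.ofFn (G8 x y)) tA10 = (2205) * (y - 15 * x) ^ 1 * (y + 21/4 * x) ^ 2 := by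
    unfold tA10
    rw [ev_G8 (k := k)]
    simp [M8, Fin.prod_univ_succ, uF, zpow_ofNat, map_ofNat]
    all_goals first
      | ring1
      | (left; norm_num; done)
      | (norm_num; done)
      | (norm_num; ring1)
  have vB : KC72.ev (List.ofFn (G8 x y)) tB10 = (16) * (x) ^ 3 * (x - 105) ^ 1 * (x + 21/16) ^ 1 := by
    unfold tB10
    rw [ev_G8 (k := k)]
    simp [M8, Fin.prod_univ_succ, uF, zpow_ofNat, map_ofNat]
    all_goals first
      | ring1
      | (left; norm_num; done)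
      | (norm_num; done)
      | (norm_num; ring1)
  have hB : (16) * (x) ^ 3 * (x - 105) ^ 1 * (x + 21/16) ^ 1 ≠ 0 := by
    rw [← vB]; exact ev_ne hg _
  have e1 : ny x y - (-21/4) * nx x y = ((105/4) ^ 2 * (x ^ 2 - y) - (-21/4) * (105/4) * x * y) / x ^ 3 := by
    unfold nx ny
    field_simp
  rw [ev_div hg, vA, vB, e1, div_eq_div_iff (pow_ne_zero _ hx) hB]
  linear_combination ((-231525/4) * x ^ 3 * y ^ 0 + (-2205) * x ^ 3 * y ^ 1 + (-11025) * x ^ 4 * y ^ 0) * he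


lemma G8_next (h : Gen (105/4 : k) (21/2) x y) :
    List.ofFn (G8 (nx x y) (ny x y)) = T8.map (KC72.ev (List.ofFn (G8 x y))) := by
  have p0 : KC72.ev (List.ofFn (G8 x y)) (false, [0, 0, 0, 0, 0, 0, 0, 0, 0, 0, 0, 1, 0, 0, 0]) = 2 := by
    rw [ev_G8 (k := k)]; simp [M8, Fin.prod_univ_succ, map_ofNat]
  have p1 : KC72.ev (List.ofFn (G8 x y)) (false, [0, 0, 0, 0, 0, 0, 0, 0, 0, 0, 0, 0, 1, 0, 0]) = 3 := by
    rw [ev_G8 (k := k)]; simp [M8, Fin.prod_univ_succ, map_ofNat]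
  have p2 : KC72.ev (List.ofFn (G8 x y)) (false, [0, 0, 0, 0, 0, 0, 0, 0, 0, 0, 0, 0, 0, 1, 0]) = 5 := by
    rw [ev_G8 (k := k)]; simp [M8, Fin.prod_univ_succ, map_ofNat]
  have p3 : KC72.ev (List.ofFn (G8 x y)) (false, [0, 0, 0, 0, 0, 0, 0, 0, 0, 0, 0, 0, 0, 0, 1]) = 7 := by
    rw [ev_G8 (k := k)]; simp [M8, Fin.prod_univ_succ, map_ofNat]
  have f0 := next0 h
  have f1 := next1 h
  have f2 := next2 h
  have f3 := next3 h
  have f4 := next4 h
  have f5 := next5 h
  have f6 := next6 h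
  have f7 := next7 h
  have f8 := next8 h
  have f9 := next9 h
  have f10 := next10 h
  unfold T8
  simp only [List.map_cons, List.map_nil, ← f0, ← f1, ← f2, ← f3, ← f4, ← f5, ← f6, ← f7, ← f8, ← f9, ← f10, p0, p1, p2, p3]
  simp [List.ofFn_succ, G8]
  all_goals first
    | ring1
    | (refine ⟨?_, ?_⟩ <;> ring1)
    | (refine ⟨?_, ?_, ?_⟩ <;> ring1)
    | (refine ⟨?_, ?_, ?_, ?_⟩ <;> ring1)
    | (refine ⟨?_, ?_, ?_, ?_, ?_⟩ <;> ring1)
    | (refine ⟨?_, ?_, ?_, ?_, ?_, ?_⟩ <;> ring1)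

lemma XF_next (h : Gen (105/4 : k) (21/2) x y) (i : Fin 12) :
    XF k (nx x y) (ny x y) i = XF k x y (i + 1) := by
  have hg := G8l_ne h
  rw [XF_ev, XF_ev, G8_next h, ← ev_subst hg, ev_eqM hg (T8_X i)]

/-- generic points after `s` translations -/
lemma exists_shift (h : Gen (105/4 : k) (21/2) x y) (s : Fin 12) :
    ∃ x' y' : F, Gen (105/4 : k) (21/2) x' y' ∧ ∀ i, XF k x' y' i = XF k x y (i + s) := by
  have key : ∀ n : ℕ, ∃ x' y' : F, Gen (105/4 : k) (21/2) x' y' ∧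
      ∀ i, XF k x' y' i = XF k x y (i + n • 1) := by
    intro n
    induction n with
    | zero => exact ⟨x, y, h, fun i => by simp⟩
    | succ n ih =>
      obtain ⟨x', y', h', hi⟩ := ih
      refine ⟨nx x' y', ny x' y', Gen.next' h', fun i => ?_⟩
      rw [XF_next h', hi]
      congr 1
      rw [succ_nsmul]
      abel
  obtain ⟨x', y', h', hi⟩ := key s.val
  refine ⟨x', y', h', fun i => ?_⟩
  have h7 : ∀ s : Fin 12, s.val • (1 : Fin 12) = s := by decide
  rw [hi, h7]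

lemma mon_shift {x' y' : F} (s : Fin 12) (hs : ∀ i, XF k x' y' i = XF k x y (i + s))
    (e : Fin 12 → ℤ) : mon k x y e = mon k x' y' (fun i => e (i + s)) := by
  unfold mon
  rw [← Equiv.prod_comp (Equiv.addRight s) (fun i => XF k x y i ^ e i)]
  refine Finset.prod_congr rfl fun i _ => ?_
  rw [hs]; rfl

variable (k) in
/-- the leading coefficient of `c ∏ X i ^ e i` at `-sP` -/
def Lc (c : k) (e : Fin 12 → ℤ) (s : Fin 12) : k := c * ∏ i, lam k i ^ e (i + s)

/-- **the orders and values at all points** -/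
theorem bound8 (h : Gen (105/4 : k) (21/2) x y) {c₀ c₁ : k} (h0 : c₀ ≠ 0) (h1 : c₁ ≠ 0)
    {e e' : Fin 12 → ℤ}
    (hu : algebraMap k F c₀ * mon k x y e + algebraMap k F c₁ * mon k x y e' = 1) (s : Fin 12) :
    (OO e s = 0 ∧ OO e' s = 0) ∨
    (1 ≤ OO e s ∧ OO e' s = 0 ∧ Lc k c₁ e' s = 1 ∧
      ∃ M : Fin 13, ordm M = 13 - OO e s ∧ ∀ m, M < m → RR k (NN fun i => e' (i + s)) m = 0) ∨
    (OO e s = 0 ∧ 1 ≤ OO e' s ∧ Lc k c₀ e s = 1) ∨
    (OO e s = OO e' s ∧ OO e s ≤ -1 ∧ Lc k c₀ e s = - Lc k c₁ e' s) := by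
  obtain ⟨x', y', h', hs⟩ := exists_shift h s
  rw [mon_shift s hs e, mon_shift s hs e', mon_eq h', mon_eq h', ← mul_assoc, ← mul_assoc,
    ← map_mul, ← map_mul, ← io_mo h', ← io_mo h', ← io_c h', ← io_c h', ← map_mul, ← map_mul,
    ← map_add] at hu
  have hu2 := io_inj h' (hu.trans (map_one _).symm)
  have n0 : Lc k c₀ e s ≠ 0 := mul_ne_zero h0
    (Finset.prod_ne_zero_iff.mpr fun i _ => zpow_ne_zero _ (lam_ne i))
  have n1 : Lc k c₁ e' s ≠ 0 := mul_ne_zero h1
    (Finset.prod_ne_zero_iff.mpr fun i _ => zpow_ne_zero _ (lam_ne i))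
  have key := bound_K (c₀ := Lc k c₀ e s) (c₁ := Lc k c₁ e' s) n0 n1 hu2
  have sh : ∀ e : Fin 12 → ℤ, Dn (NN fun i => e (i + s)) 0 = OO e s := by
    intro e
    rw [Dn_NN, neg_zero, OO_shift, zero_add]
  simp only [sh] at key
  exact key

end F

end Pool.Agent.KYc
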