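import Pool.Agent.Lib_helper72.KYc.C
import Pool.Agent.Lib_helper72.KYc.ClD
import Pool.Agent.Lib_helper72.KY.Nx
import Pool.Agent.Lib_helper72.KC.P2

/-!
# The curve with `b = 105/4`, `c = 21/2`: data of the cubic step
-/

set_option autoImplicit false
set_option linter.unusedSectionVars false
set_option linter.unusedSimpArgs false
set_option linter.unusedVariables false

namespace Pool.Agent.KYc

open Polynomial WeierstrassCurve.Affine WithZero TN KY KC72 MK4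
open Pool.Agent.K7 (orb6_orb)

/-- the Moebius functions -/
noncomputable def pq : List Mo := [
  (false, [.ofNat 0, .ofNat 1, .ofNat 0, .negSucc 0, .ofNat 0, .ofNat 0, .ofNat 0, .ofNat 0, .ofNat 0, .ofNat 0, .ofNat 0, .ofNat 0, .ofNat 0, .ofNat 0, .negSucc 0]),
  (false, [.ofNat 0, .ofNat 0, .ofNat 0, .ofNat 0, .ofNat 0, .ofNat 1, .ofNat 0, .ofNat 0, .ofNat 0, .ofNat 0, .ofNat 0, .ofNat 4, .negSucc 0, .ofNat 0, .negSucc 0]),
  (false, [.ofNat 0, .ofNat 1, .negSucc 0, .ofNat 0, .ofNat 0, .ofNat 0, .ofNat 0, .ofNat 0, .ofNat 0, .ofNat 0, .ofNat 0, .negSucc 0, .ofNat 1, .negSucc 0, .ofNat 0]),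
  (true, [.ofNat 0, .ofNat 0, .ofNat 0, .ofNat 0, .negSucc 0, .ofNat 1, .ofNat 0, .ofNat 0, .ofNat 0, .ofNat 0, .ofNat 0, .ofNat 2, .ofNat 0, .ofNat 1, .ofNat 0]),
  (false, [.ofNat 0, .ofNat 1, .ofNat 0, .ofNat 0, .ofNat 0, .ofNat 0, .ofNat 0, .ofNat 0, .ofNat 0, .ofNat 0, .ofNat 0, .ofNat 2, .negSucc 1, .negSucc 0, .negSucc 0]),
  (false, [.ofNat 0, .ofNat 0, .ofNat 0, .negSucc 0, .ofNat 0, .ofNat 1, .ofNat 0, .ofNat 0, .ofNat 0, .ofNat 0, .ofNat 0, .ofNat 2, .negSucc 0, .ofNat 1, .negSucc 0]),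
  (true, [.ofNat 0, .ofNat 0, .ofNat 0, .ofNat 0, .negSucc 0, .ofNat 1, .ofNat 0, .ofNat 0, .ofNat 0, .ofNat 0, .ofNat 0, .ofNat 2, .ofNat 0, .ofNat 1, .negSucc 0]),
  (false, [.ofNat 0, .negSucc 0, .ofNat 0, .ofNat 0, .ofNat 0, .ofNat 1, .ofNat 0, .ofNat 0, .ofNat 0, .ofNat 0, .ofNat 0, .ofNat 0, .ofNat 0, .ofNat 0, .ofNat 0]),
  (false, [.ofNat 0, .ofNat 0, .ofNat 0, .ofNat 0, .ofNat 0, .ofNat 1, .ofNat 0, .ofNat 0, .ofNat 0, .ofNat 0, .ofNat 0, .ofNat 4, .negSucc 2, .ofNat 0, .negSucc 0]),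
  (true, [.ofNat 1, .ofNat 0, .ofNat 0, .ofNat 0, .negSucc 0, .ofNat 0, .ofNat 0, .ofNat 0, .ofNat 0, .ofNat 0, .ofNat 0, .ofNat 0, .ofNat 2, .ofNat 0, .ofNat 0]),
  (true, [.ofNat 0, .ofNat 1, .ofNat 0, .negSucc 0, .ofNat 0, .ofNat 0, .ofNat 0, .ofNat 0, .ofNat 0, .ofNat 0, .ofNat 0, .ofNat 0, .ofNat 1, .ofNat 0, .negSucc 0]),
  (false, [.ofNat 1, .ofNat 0, .negSucc 0, .ofNat 0, .ofNat 0, .ofNat 0, .ofNat 0, .ofNat 0, .ofNat 0, .ofNat 0, .ofNat 0, .negSucc 0, .ofNat 2, .negSucc 0, .ofNat 0]),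
  (false, [.ofNat 0, .ofNat 1, .negSucc 0, .ofNat 0, .ofNat 0, .ofNat 0, .ofNat 0, .ofNat 0, .ofNat 0, .ofNat 0, .ofNat 0, .ofNat 1, .ofNat 1, .negSucc 0, .ofNat 0]),
  (false, [.ofNat 1, .ofNat 0, .ofNat 0, .negSucc 0, .ofNat 0, .ofNat 0, .ofNat 0, .ofNat 0, .ofNat 0, .ofNat 0, .ofNat 0, .negSucc 0, .ofNat 2, .ofNat 0, .negSucc 0]),
  (false, [.ofNat 0, .ofNat 1, .ofNat 0, .ofNat 0, .negSucc 0, .ofNat 0, .ofNat 0, .ofNat 0, .ofNat 0, .ofNat 0, .ofNat 0, .ofNat 1, .ofNat 1, .ofNat 0, .ofNat 0]),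
  (false, [.ofNat 0, .ofNat 1, .negSucc 0, .ofNat 0, .ofNat 0, .ofNat 0, .ofNat 0, .ofNat 0, .ofNat 0, .ofNat 0, .ofNat 0, .ofNat 1, .ofNat 0, .negSucc 0, .ofNat 0]),
  (true, [.negSucc 0, .ofNat 1, .ofNat 0, .ofNat 0, .ofNat 0, .ofNat 0, .ofNat 0, .ofNat 0, .ofNat 0, .ofNat 0, .ofNat 0, .negSucc 0, .negSucc 0, .ofNat 0, .ofNat 0])]

/-- the functions of degree three of the coordinate -/
noncomputable def R0 : List Mo := [
  (false, [.ofNat 0, .ofNat 2, .ofNat 0, .negSucc 1, .ofNat 0, .ofNat 1, .ofNat 0, .ofNat 0, .ofNat 0, .ofNat 0, .ofNat 0, .ofNat 4, .negSucc 0, .ofNat 0, .negSucc 2]),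
  (true, [.ofNat 2, .ofNat 1, .ofNat 0, .negSucc 0, .negSucc 1, .ofNat 0, .ofNat 0, .ofNat 0, .ofNat 0, .ofNat 0, .ofNat 0, .ofNat 0, .ofNat 5, .ofNat 0, .negSucc 0])]

/-- positions of the translates of `pq` -/
noncomputable def qT : List (List (ℕ × ℕ)) := [
  [(100, 4), (67, 4), (162, 5), (235, 1), (145, 5), (235, 3), (144, 1), (138, 2), (201, 4), (72, 0), (162, 0), (72, 5), (143, 5), (87, 5), (143, 0), (88, 1), (100, 2)],
  [(131, 4), (327, 1), (221, 1), (248, 0), (0, 2), (248, 5), (260, 2), (9, 4), (8, 2), (198, 5), (221, 3), (198, 0), (215, 1), (197, 5), (215, 3), (133, 4), (131, 2)],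
  [(35, 4), (103, 1), (154, 1), (239, 0), (275, 1), (239, 5), (240, 0), (267, 5), (268, 0), (32, 5), (154, 3), (32, 0), (122, 1), (31, 5), (122, 3), (36, 4), (35, 2)],
  [(302, 4), (108, 0), (49, 5), (220, 0), (290, 4), (220, 5), (99, 1), (287, 0), (130, 5), (156, 3), (49, 0), (156, 1), (52, 0), (223, 5), (52, 5), (303, 4), (302, 2)],
  [(263, 2), (106, 0), (309, 0), (182, 0), (272, 4), (182, 5), (183, 0), (107, 5), (95, 4), (321, 3), (309, 5), (321, 1), (308, 0), (311, 3), (308, 5), (69, 2), (263, 4)],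
  [(26, 2), (237, 1), (84, 1), (38, 1), (158, 1), (38, 3), (136, 2), (190, 2), (112, 4), (280, 3), (84, 3), (280, 1), (279, 1), (81, 3), (279, 3), (149, 2), (26, 4)]]

/-- positions of the classes of degree six -/
noncomputable def cubT : List (ℕ × ℕ × ℕ) := [(1, 0, 0), (1, 2, 5), (0, 1, 3), (1, 3, 5), (1, 5, 3), (0, 0, 4), (1, 1, 3), (1, 4, 3)]

/-- the classes of degree at most five -/
noncomputable def clsA : List (Mo × Mo) := cls.take 345

section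

variable {k : Type*} [Field k] [CharZero k] {F : Type*} [Field F] [Algebra k F] {x y : F}

lemma mk0 : algebraMap k F (105/4) = 105/4 := by simp [map_div₀, map_ofNat, map_neg]

lemma mk1 : algebraMap k F (-21/16) = -21/16 := by simp [map_div₀, map_ofNat, map_neg]

lemma mk2 : algebraMap k F (0) = 0 := by simp [map_div₀, map_ofNat, map_neg]

lemma mk3 : algebraMap k F (21/2) = 21/2 := by simp [map_div₀, map_ofNat, map_neg]

lemma mk4 : algebraMap k F (105) = 105 := by simp [map_div₀, map_ofNat, map_neg]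

lemma mk5 : algebraMap k F (15/4) = 15/4 := by simp [map_div₀, map_ofNat, map_neg]

lemma mk6 : algebraMap k F (16/1029) = 16/1029 := by simp [map_div₀, map_ofNat, map_neg]

lemma mk7 : algebraMap k F (-4/15) = -4/15 := by simp [map_div₀, map_ofNat, map_neg]

lemma mk8 : algebraMap k F (2/45) = 2/45 := by simp [map_div₀, map_ofNat, map_neg]

lemma mk9 : algebraMap k F (4/27) = 4/27 := by simp [map_div₀, map_ofNat, map_neg]

lemma mk10 : algebraMap k F (4/405) = 4/405 := by simp [map_div₀, map_ofNat, map_neg]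

lemma mk11 : algebraMap k F (15/14) = 15/14 := by simp [map_div₀, map_ofNat, map_neg]

end

end Pool.Agent.KYc
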