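import Pool.Agent.Lib_helper72.KYc.Cp

/-!
# The curve with `b = 105/4`, `c = 21/2`: identities of the cubic step
-/

set_option autoImplicit false
set_option linter.unusedSectionVars false
set_option linter.unusedSimpArgs false
set_option linter.unusedVariables false

namespace Pool.Agent.KYc

open Polynomial WeierstrassCurve.Affine WithZero TN KY KC72 MK4
open Pool.Agent.K7 (orb6_orb)

section

variable {k : Type*} [Field k] [CharZero k] {F : Type*} [Field F] [Algebra k F] {x y : F}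

lemma sq0 (h : Gen (105/4 : k) (21/2) x y) : SS (pt x) (pt (algebraMap k F (105/4))) (pt (algebraMap k F (15/4))) (pt (algebraMap k F (0))) =
    sy (KC72.ev (List.ofFn (G8 x y)) (pq.getD 0 default)) := by
  have := cz (k := k) (F := F)
  have n1 : x ≠ 0 := uF_ne h 0
  have n2 : x - 105/4 ≠ 0 := uF_ne h 1
  have n3 : x - 21/2 ≠ 0 := uF_ne h 2
  have n4 : x - 15/4 ≠ 0 := uF_ne h 3
  have n5 : x - 105 ≠ 0 := uF_ne h 4
  have n6 : x + 21/16 ≠ 0 := uF_ne h 5
  have o2 : 4 * x - 105 ≠ 0 := by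
    intro h0; apply n2; linear_combination h0 / 4
  have o2' : x * 4 - 105 ≠ 0 := by
    intro h0; apply n2; linear_combination h0 / 4
  have o3 : 2 * x - 21 ≠ 0 := by
    intro h0; apply n3; linear_combination h0 / 2
  have o3' : x * 2 - 21 ≠ 0 := by
    intro h0; apply n3; linear_combination h0 / 2
  have o4 : 4 * x - 15 ≠ 0 := by
    intro h0; apply n4; linear_combination h0 / 4
  have o4' : x * 4 - 15 ≠ 0 := by
    intro h0; apply n4; linear_combination h0 / 4
  have o6 : 16 * x + 21 ≠ 0 := by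
    intro h0; apply n6; linear_combination h0 / 16
  have o6' : x * 16 + 21 ≠ 0 := by
    intro h0; apply n6; linear_combination h0 / 16
  show _ = sy (KC72.ev (List.ofFn (G8 x y)) (false, [.ofNat 0, .ofNat 1, .ofNat 0, .negSucc 0, .ofNat 0, .ofNat 0, .ofNat 0, .ofNat 0, .ofNat 0, .ofNat 0, .ofNat 0, .ofNat 0, .ofNat 0, .ofNat 0, .negSucc 0]))
  unfold SS
  congr 1
  rw [ev_G8 (k := k)]
  unfold KC72.cr
  simp only [br_pt, br_pto, br_opt, mk0, mk1, mk2, mk3, mk4, mk5, mk6, mk7, mk8, mk9, mk10, mk11]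
  simp [M8, Fin.prod_univ_succ, uF, zpow_ofNat, map_ofNat]
  field_simp
  try ring

lemma sq1 (h : Gen (105/4 : k) (21/2) x y) : SS (pt x) (pt (algebraMap k F (-21/16))) (po F) (pt (algebraMap k F (0))) =
    sy (KC72.ev (List.ofFn (G8 x y)) (pq.getD 1 default)) := by
  have := cz (k := k) (F := F)
  have n1 : x ≠ 0 := uF_ne h 0
  have n2 : x - 105/4 ≠ 0 := uF_ne h 1
  have n3 : x - 21/2 ≠ 0 := uF_ne h 2
  have n4 : x - 15/4 ≠ 0 := uF_ne h 3
  have n5 : x - 105 ≠ 0 := uF_ne h 4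
  have n6 : x + 21/16 ≠ 0 := uF_ne h 5
  have o2 : 4 * x - 105 ≠ 0 := by
    intro h0; apply n2; linear_combination h0 / 4
  have o2' : x * 4 - 105 ≠ 0 := by
    intro h0; apply n2; linear_combination h0 / 4
  have o3 : 2 * x - 21 ≠ 0 := by
    intro h0; apply n3; linear_combination h0 / 2
  have o3' : x * 2 - 21 ≠ 0 := by
    intro h0; apply n3; linear_combination h0 / 2
  have o4 : 4 * x - 15 ≠ 0 := by
    intro h0; apply n4; linear_combination h0 / 4
  have o4' : x * 4 - 15 ≠ 0 := by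
    intro h0; apply n4; linear_combination h0 / 4
  have o6 : 16 * x + 21 ≠ 0 := by
    intro h0; apply n6; linear_combination h0 / 16
  have o6' : x * 16 + 21 ≠ 0 := by
    intro h0; apply n6; linear_combination h0 / 16
  show _ = sy (KC72.ev (List.ofFn (G8 x y)) (false, [.ofNat 0, .ofNat 0, .ofNat 0, .ofNat 0, .ofNat 0, .ofNat 1, .ofNat 0, .ofNat 0, .ofNat 0, .ofNat 0, .ofNat 0, .ofNat 4, .negSucc 0, .ofNat 0, .negSucc 0]))
  unfold SS
  congr 1
  rw [ev_G8 (k := k)]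
  unfold KC72.cr
  simp only [br_pt, br_pto, br_opt, mk0, mk1, mk2, mk3, mk4, mk5, mk6, mk7, mk8, mk9, mk10, mk11]
  simp [M8, Fin.prod_univ_succ, uF, zpow_ofNat, map_ofNat]
  field_simp
  try ring

lemma sq2 (h : Gen (105/4 : k) (21/2) x y) : SS (pt x) (pt (algebraMap k F (105/4))) (pt (algebraMap k F (21/2))) (pt (algebraMap k F (15/4))) =
    sy (KC72.ev (List.ofFn (G8 x y)) (pq.getD 2 default)) := by
  have := cz (k := k) (F := F)
  have n1 : x ≠ 0 := uF_ne h 0
  have n2 : x - 105/4 ≠ 0 := uF_ne h 1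
  have n3 : x - 21/2 ≠ 0 := uF_ne h 2
  have n4 : x - 15/4 ≠ 0 := uF_ne h 3
  have n5 : x - 105 ≠ 0 := uF_ne h 4
  have n6 : x + 21/16 ≠ 0 := uF_ne h 5
  have o2 : 4 * x - 105 ≠ 0 := by
    intro h0; apply n2; linear_combination h0 / 4
  have o2' : x * 4 - 105 ≠ 0 := by
    intro h0; apply n2; linear_combination h0 / 4
  have o3 : 2 * x - 21 ≠ 0 := by
    intro h0; apply n3; linear_combination h0 / 2
  have o3' : x * 2 - 21 ≠ 0 := by
    intro h0; apply n3; linear_combination h0 / 2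
  have o4 : 4 * x - 15 ≠ 0 := by
    intro h0; apply n4; linear_combination h0 / 4
  have o4' : x * 4 - 15 ≠ 0 := by
    intro h0; apply n4; linear_combination h0 / 4
  have o6 : 16 * x + 21 ≠ 0 := by
    intro h0; apply n6; linear_combination h0 / 16
  have o6' : x * 16 + 21 ≠ 0 := by
    intro h0; apply n6; linear_combination h0 / 16
  show _ = sy (KC72.ev (List.ofFn (G8 x y)) (false, [.ofNat 0, .ofNat 1, .negSucc 0, .ofNat 0, .ofNat 0, .ofNat 0, .ofNat 0, .ofNat 0, .ofNat 0, .ofNat 0, .ofNat 0, .negSucc 0, .ofNat 1, .negSucc 0, .ofNat 0]))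
  unfold SS
  congr 1
  rw [ev_G8 (k := k)]
  unfold KC72.cr
  simp only [br_pt, br_pto, br_opt, mk0, mk1, mk2, mk3, mk4, mk5, mk6, mk7, mk8, mk9, mk10, mk11]
  simp [M8, Fin.prod_univ_succ, uF, zpow_ofNat, map_ofNat]
  field_simp
  try ring

lemma sq3 (h : Gen (105/4 : k) (21/2) x y) : SS (pt x) (pt (algebraMap k F (-21/16))) (pt (algebraMap k F (105))) (pt (algebraMap k F (15/4))) =
    sy (KC72.ev (List.ofFn (G8 x y)) (pq.getD 3 default)) := by
  have := cz (k := k) (F := F)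
  have n1 : x ≠ 0 := uF_ne h 0
  have n2 : x - 105/4 ≠ 0 := uF_ne h 1
  have n3 : x - 21/2 ≠ 0 := uF_ne h 2
  have n4 : x - 15/4 ≠ 0 := uF_ne h 3
  have n5 : x - 105 ≠ 0 := uF_ne h 4
  have n6 : x + 21/16 ≠ 0 := uF_ne h 5
  have o2 : 4 * x - 105 ≠ 0 := by
    intro h0; apply n2; linear_combination h0 / 4
  have o2' : x * 4 - 105 ≠ 0 := by
    intro h0; apply n2; linear_combination h0 / 4
  have o3 : 2 * x - 21 ≠ 0 := by
    intro h0; apply n3; linear_combination h0 / 2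
  have o3' : x * 2 - 21 ≠ 0 := by
    intro h0; apply n3; linear_combination h0 / 2
  have o4 : 4 * x - 15 ≠ 0 := by
    intro h0; apply n4; linear_combination h0 / 4
  have o4' : x * 4 - 15 ≠ 0 := by
    intro h0; apply n4; linear_combination h0 / 4
  have o6 : 16 * x + 21 ≠ 0 := by
    intro h0; apply n6; linear_combination h0 / 16
  have o6' : x * 16 + 21 ≠ 0 := by
    intro h0; apply n6; linear_combination h0 / 16
  show _ = sy (KC72.ev (List.ofFn (G8 x y)) (true, [.ofNat 0, .ofNat 0, .ofNat 0, .ofNat 0, .negSucc 0, .ofNat 1, .ofNat 0, .ofNat 0, .ofNat 0, .ofNat 0, .ofNat 0, .ofNat 2, .ofNat 0, .ofNat 1, .ofNat 0]))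
  unfold SS
  congr 1
  rw [ev_G8 (k := k)]
  unfold KC72.cr
  simp only [br_pt, br_pto, br_opt, mk0, mk1, mk2, mk3, mk4, mk5, mk6, mk7, mk8, mk9, mk10, mk11]
  simp [M8, Fin.prod_univ_succ, uF, zpow_ofNat, map_ofNat]
  field_simp
  try ring

lemma sq4 (h : Gen (105/4 : k) (21/2) x y) : SS (pt x) (pt (algebraMap k F (105/4))) (po F) (pt (algebraMap k F (105))) =
    sy (KC72.ev (List.ofFn (G8 x y)) (pq.getD 4 default)) := by
  have := cz (k := k) (F := F)
  have n1 : x ≠ 0 := uF_ne h 0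
  have n2 : x - 105/4 ≠ 0 := uF_ne h 1
  have n3 : x - 21/2 ≠ 0 := uF_ne h 2
  have n4 : x - 15/4 ≠ 0 := uF_ne h 3
  have n5 : x - 105 ≠ 0 := uF_ne h 4
  have n6 : x + 21/16 ≠ 0 := uF_ne h 5
  have o2 : 4 * x - 105 ≠ 0 := by
    intro h0; apply n2; linear_combination h0 / 4
  have o2' : x * 4 - 105 ≠ 0 := by
    intro h0; apply n2; linear_combination h0 / 4
  have o3 : 2 * x - 21 ≠ 0 := by
    intro h0; apply n3; linear_combination h0 / 2
  have o3' : x * 2 - 21 ≠ 0 := by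
    intro h0; apply n3; linear_combination h0 / 2
  have o4 : 4 * x - 15 ≠ 0 := by
    intro h0; apply n4; linear_combination h0 / 4
  have o4' : x * 4 - 15 ≠ 0 := by
    intro h0; apply n4; linear_combination h0 / 4
  have o6 : 16 * x + 21 ≠ 0 := by
    intro h0; apply n6; linear_combination h0 / 16
  have o6' : x * 16 + 21 ≠ 0 := by
    intro h0; apply n6; linear_combination h0 / 16
  show _ = sy (KC72.ev (List.ofFn (G8 x y)) (false, [.ofNat 0, .ofNat 1, .ofNat 0, .ofNat 0, .ofNat 0, .ofNat 0, .ofNat 0, .ofNat 0, .ofNat 0, .ofNat 0, .ofNat 0, .ofNat 2, .negSucc 1, .negSucc 0, .negSucc 0]))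
  unfold SS
  congr 1
  rw [ev_G8 (k := k)]
  unfold KC72.cr
  simp only [br_pt, br_pto, br_opt, mk0, mk1, mk2, mk3, mk4, mk5, mk6, mk7, mk8, mk9, mk10, mk11]
  simp [M8, Fin.prod_univ_succ, uF, zpow_ofNat, map_ofNat]
  field_simp
  try ring

lemma sq5 (h : Gen (105/4 : k) (21/2) x y) : SS (pt x) (pt (algebraMap k F (-21/16))) (pt (algebraMap k F (15/4))) (pt (algebraMap k F (105))) =
    sy (KC72.ev (List.ofFn (G8 x y)) (pq.getD 5 default)) := by
  have := cz (k := k) (F := F)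
  have n1 : x ≠ 0 := uF_ne h 0
  have n2 : x - 105/4 ≠ 0 := uF_ne h 1
  have n3 : x - 21/2 ≠ 0 := uF_ne h 2
  have n4 : x - 15/4 ≠ 0 := uF_ne h 3
  have n5 : x - 105 ≠ 0 := uF_ne h 4
  have n6 : x + 21/16 ≠ 0 := uF_ne h 5
  have o2 : 4 * x - 105 ≠ 0 := by
    intro h0; apply n2; linear_combination h0 / 4
  have o2' : x * 4 - 105 ≠ 0 := by
    intro h0; apply n2; linear_combination h0 / 4
  have o3 : 2 * x - 21 ≠ 0 := by
    intro h0; apply n3; linear_combination h0 / 2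
  have o3' : x * 2 - 21 ≠ 0 := by
    intro h0; apply n3; linear_combination h0 / 2
  have o4 : 4 * x - 15 ≠ 0 := by
    intro h0; apply n4; linear_combination h0 / 4
  have o4' : x * 4 - 15 ≠ 0 := by
    intro h0; apply n4; linear_combination h0 / 4
  have o6 : 16 * x + 21 ≠ 0 := by
    intro h0; apply n6; linear_combination h0 / 16
  have o6' : x * 16 + 21 ≠ 0 := by
    intro h0; apply n6; linear_combination h0 / 16
  show _ = sy (KC72.ev (List.ofFn (G8 x y)) (false, [.ofNat 0, .ofNat 0, .ofNat 0, .negSucc 0, .ofNat 0, .ofNat 1, .ofNat 0, .ofNat 0, .ofNat 0, .ofNat 0, .ofNat 0, .ofNat 2, .negSucc 0, .ofNat 1, .negSucc 0]))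
  unfold SS
  congr 1
  rw [ev_G8 (k := k)]
  unfold KC72.cr
  simp only [br_pt, br_pto, br_opt, mk0, mk1, mk2, mk3, mk4, mk5, mk6, mk7, mk8, mk9, mk10, mk11]
  simp [M8, Fin.prod_univ_succ, uF, zpow_ofNat, map_ofNat]
  field_simp
  try ring

lemma sq6 (h : Gen (105/4 : k) (21/2) x y) : SS (pt x) (pt (algebraMap k F (-21/16))) (pt (algebraMap k F (105))) (pt (algebraMap k F (105/4))) =
    sy (KC72.ev (List.ofFn (G8 x y)) (pq.getD 6 default)) := by
  have := cz (k := k) (F := F)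
  have n1 : x ≠ 0 := uF_ne h 0
  have n2 : x - 105/4 ≠ 0 := uF_ne h 1
  have n3 : x - 21/2 ≠ 0 := uF_ne h 2
  have n4 : x - 15/4 ≠ 0 := uF_ne h 3
  have n5 : x - 105 ≠ 0 := uF_ne h 4
  have n6 : x + 21/16 ≠ 0 := uF_ne h 5
  have o2 : 4 * x - 105 ≠ 0 := by
    intro h0; apply n2; linear_combination h0 / 4
  have o2' : x * 4 - 105 ≠ 0 := by
    intro h0; apply n2; linear_combination h0 / 4
  have o3 : 2 * x - 21 ≠ 0 := by
    intro h0; apply n3; linear_combination h0 / 2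
  have o3' : x * 2 - 21 ≠ 0 := by
    intro h0; apply n3; linear_combination h0 / 2
  have o4 : 4 * x - 15 ≠ 0 := by
    intro h0; apply n4; linear_combination h0 / 4
  have o4' : x * 4 - 15 ≠ 0 := by
    intro h0; apply n4; linear_combination h0 / 4
  have o6 : 16 * x + 21 ≠ 0 := by
    intro h0; apply n6; linear_combination h0 / 16
  have o6' : x * 16 + 21 ≠ 0 := by
    intro h0; apply n6; linear_combination h0 / 16
  show _ = sy (KC72.ev (List.ofFn (G8 x y)) (true, [.ofNat 0, .ofNat 0, .ofNat 0, .ofNat 0, .negSucc 0, .ofNat 1, .ofNat 0, .ofNat 0, .ofNat 0, .ofNat 0, .ofNat 0, .ofNat 2, .ofNat 0, .ofNat 1, .negSucc 0]))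
  unfold SS
  congr 1
  rw [ev_G8 (k := k)]
  unfold KC72.cr
  simp only [br_pt, br_pto, br_opt, mk0, mk1, mk2, mk3, mk4, mk5, mk6, mk7, mk8, mk9, mk10, mk11]
  simp [M8, Fin.prod_univ_succ, uF, zpow_ofNat, map_ofNat]
  field_simp
  try ring

end

end Pool.Agent.KYc
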