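import Pool.Agent.Lib_helper72.KYc.S
import Pool.Agent.Lib_helper72.KYc.Ck
import Pool.Agent.Lib_helper72.KYc.Cq0
import Pool.Agent.Lib_helper72.KYc.Cq1
import Pool.Agent.Lib_helper72.KYc.Cq2

/-!
# The curve with `b = 105/4`, `c = 21/2`: the cubic step
-/

set_option autoImplicit false
set_option linter.unusedSectionVars false
set_option linter.unusedSimpArgs false
set_option linter.unusedVariables false

namespace Pool.Agent.KYc

open Polynomial WeierstrassCurve.Affine WithZero TN KY KC72 MK4
open Pool.Agent.K7 (orb6_orb)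

section

variable {k : Type*} [Field k] [CharZero k] {F : Type*} [Field F] [Algebra k F] {x y : F}

lemma u_nc0 (h : Gen (105/4 : k) (21/2) x y) (c : k) : x ≠ algebraMap k F c := by
  intro hc
  have hx : x ≠ 0 := uF_ne h 0
  have h1 : M8 x y ![1, 0, 0, 0, 0, 0, 0, 0, 0, 0, 0] = algebraMap k F c := by
    rw [← hc]
    simp [M8, Fin.prod_univ_succ, uF]
  have h2 := M8_const h h1
  have h3 := congrFun h2 0
  simp at h3

lemma u_nc4 (h : Gen (105/4 : k) (21/2) x y) (c : k) : (1 / (x - 15/4)) ≠ algebraMap k F c := by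
  intro hc
  have hx : x - 15/4 ≠ 0 := uF_ne h 3
  have h1 : M8 x y ![0, 0, 0, -1, 0, 0, 0, 0, 0, 0, 0] = algebraMap k F c := by
    rw [← hc]
    simp [M8, Fin.prod_univ_succ, uF]
  have h2 := M8_const h h1
  have h3 := congrFun h2 3
  simp at h3

variable (k x y) in
/-- the span of the symbols of the Moebius functions -/
noncomputable def V : Submodule ℚ (B2 F) := SC k F ⊔ Submodule.span ℚ
  {a | ∃ q < 17, a = sy (KC72.ev (List.ofFn (G8 x y)) (pq.getD q default))}

lemma memV {q : ℕ} (hq : q < 17) :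
    sy (KC72.ev (List.ofFn (G8 x y)) (pq.getD q default)) ∈ V k x y :=
  Submodule.mem_sup_right (Submodule.subset_span ⟨q, hq, rfl⟩)

theorem cub0_0 (h : Gen (105/4 : k) (21/2) x y) :
    sy (KC72.ev (List.ofFn (G8 x y)) (R0.getD 0 default)) ∈ V k x y := by
  have := cz (k := k) (F := F)
  have H := sy_cubic' (k := k) (x := x) (u_nc0 h) (a1 := 105/4) (a2 := 105/4) (a3 := -21/16)
    (b := 15/4) (c1 := 0) (c2 := 21/2) (c3 := 105) (κ := 16/1029) (fun p => by ring)
    (by norm_num) (by norm_num) (by norm_num) (by norm_num) (by norm_num) (by norm_num)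
    (by norm_num)
  rw [hR0 h] at H
  have m1 : SS (pt x) (pt (algebraMap k F (105/4))) (pt (algebraMap k F (15/4))) (pt (algebraMap k F (0))) ∈ V k x y := by
    rw [sq0 h]; exact memV (by norm_num)
  have m2 : SS (pt x) (pt (algebraMap k F (105/4))) (pt (algebraMap k F (15/4))) (pt (algebraMap k F (0))) ∈ V k x y := by
    rw [sq0 h]; exact memV (by norm_num)
  have m3 : SS (pt x) (pt (algebraMap k F (-21/16))) (po F) (pt (algebraMap k F (0))) ∈ V k x y := by
    rw [sq1 h]; exact memV (by norm_num)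
  have m4 : SS (pt x) (pt (algebraMap k F (105/4))) (pt (algebraMap k F (21/2))) (pt (algebraMap k F (15/4))) ∈ V k x y := by
    rw [sq2 h]; exact memV (by norm_num)
  have m5 : SS (pt x) (pt (algebraMap k F (-21/16))) (pt (algebraMap k F (105))) (pt (algebraMap k F (15/4))) ∈ V k x y := by
    rw [sq3 h]; exact memV (by norm_num)
  have m6 : SS (pt x) (pt (algebraMap k F (105/4))) (pt (algebraMap k F (21/2))) (pt (algebraMap k F (15/4))) ∈ V k x y := by
    rw [sq2 h]; exact memV (by norm_num)
  have m7 : SS (pt x) (pt (algebraMap k F (105/4))) (po F) (pt (algebraMap k F (105))) ∈ V k x y := by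
    rw [sq4 h]; exact memV (by norm_num)
  have m8 : SS (pt x) (pt (algebraMap k F (-21/16))) (pt (algebraMap k F (15/4))) (pt (algebraMap k F (105))) ∈ V k x y := by
    rw [sq5 h]; exact memV (by norm_num)
  have m9 : SS (pt x) (pt (algebraMap k F (-21/16))) (pt (algebraMap k F (105))) (pt (algebraMap k F (105/4))) ∈ V k x y := by
    rw [sq6 h]; exact memV (by norm_num)
  have m10 : SS (pt x) (pt (algebraMap k F (-21/16))) (pt (algebraMap k F (105/4))) (po F) ∈ V k x y := by
    rw [sq7 h]; exact memV (by norm_num)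
  have m11 : SS (pt x) (pt (algebraMap k F (-21/16))) (po F) (pt (algebraMap k F (21/2))) ∈ V k x y := by
    rw [sq8 h]; exact memV (by norm_num)
  have H2 := Submodule.add_mem (V k x y) (Submodule.mem_sup_left H)
    (Submodule.add_mem _ (Submodule.add_mem _ (Submodule.add_mem _ (Submodule.add_mem _
    (Submodule.add_mem _ (Submodule.sub_mem _ (Submodule.sub_mem _ (Submodule.sub_mem _
    (Submodule.add_mem _ (Submodule.add_mem _ m1 m2) m3) m4) m5) m6) m7) m8) m9) m10) m11)
  rwa [sub_add_cancel] at H2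

theorem cub0_1 (h : Gen (105/4 : k) (21/2) x y) :
    sy (KC72.ev (List.ofFn (G8 x y)) (R0.getD 1 default)) ∈ V k x y := by
  have := cz (k := k) (F := F)
  have H := sy_cubic' (k := k) (x := (1 / (x - 15/4))) (u_nc4 h) (a1 := -4/15) (a2 := -4/15) (a3 := 2/45)
    (b := 4/405) (c1 := 4/27) (c2 := 4/27) (c3 := 4/27) (κ := 15/14) (fun p => by ring)
    (by norm_num) (by norm_num) (by norm_num) (by norm_num) (by norm_num) (by norm_num)
    (by norm_num)
  rw [hR1 h] at H
  have m1 : SS (pt (1 / (x - 15/4))) (pt (algebraMap k F (-4/15))) (pt (algebraMap k F (4/405))) (pt (algebraMap k F (4/27))) ∈ V k x y := by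
    rw [sq9 h]; exact memV (by norm_num)
  have m2 : SS (pt (1 / (x - 15/4))) (pt (algebraMap k F (-4/15))) (pt (algebraMap k F (4/405))) (pt (algebraMap k F (4/27))) ∈ V k x y := by
    rw [sq9 h]; exact memV (by norm_num)
  have m3 : SS (pt (1 / (x - 15/4))) (pt (algebraMap k F (2/45))) (po F) (pt (algebraMap k F (4/27))) ∈ V k x y := by
    rw [sq10 h]; exact memV (by norm_num)
  have m4 : SS (pt (1 / (x - 15/4))) (pt (algebraMap k F (-4/15))) (pt (algebraMap k F (4/27))) (pt (algebraMap k F (4/405))) ∈ V k x y := by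
    rw [sq11 h]; exact memV (by norm_num)
  have m5 : SS (pt (1 / (x - 15/4))) (pt (algebraMap k F (2/45))) (pt (algebraMap k F (4/27))) (pt (algebraMap k F (4/405))) ∈ V k x y := by
    rw [sq12 h]; exact memV (by norm_num)
  have m6 : SS (pt (1 / (x - 15/4))) (pt (algebraMap k F (-4/15))) (pt (algebraMap k F (4/27))) (pt (algebraMap k F (4/405))) ∈ V k x y := by
    rw [sq11 h]; exact memV (by norm_num)
  have m7 : SS (pt (1 / (x - 15/4))) (pt (algebraMap k F (-4/15))) (po F) (pt (algebraMap k F (4/27))) ∈ V k x y := by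
    rw [sq13 h]; exact memV (by norm_num)
  have m8 : SS (pt (1 / (x - 15/4))) (pt (algebraMap k F (2/45))) (pt (algebraMap k F (4/405))) (pt (algebraMap k F (4/27))) ∈ V k x y := by
    rw [sq14 h]; exact memV (by norm_num)
  have m9 : SS (pt (1 / (x - 15/4))) (pt (algebraMap k F (2/45))) (pt (algebraMap k F (4/27))) (pt (algebraMap k F (-4/15))) ∈ V k x y := by
    rw [sq15 h]; exact memV (by norm_num)
  have m10 : SS (pt (1 / (x - 15/4))) (pt (algebraMap k F (2/45))) (pt (algebraMap k F (-4/15))) (po F) ∈ V k x y := by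
    rw [sq16 h]; exact memV (by norm_num)
  have m11 : SS (pt (1 / (x - 15/4))) (pt (algebraMap k F (2/45))) (po F) (pt (algebraMap k F (4/27))) ∈ V k x y := by
    rw [sq10 h]; exact memV (by norm_num)
  have H2 := Submodule.add_mem (V k x y) (Submodule.mem_sup_left H)
    (Submodule.add_mem _ (Submodule.add_mem _ (Submodule.add_mem _ (Submodule.add_mem _
    (Submodule.add_mem _ (Submodule.sub_mem _ (Submodule.sub_mem _ (Submodule.sub_mem _
    (Submodule.add_mem _ (Submodule.add_mem _ m1 m2) m3) m4) m5) m6) m7) m8) m9) m10) m11)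
  rwa [sub_add_cancel] at H2

/-- the translates -/
theorem cubj {β : ℕ} (hβ : β < 2) (i : ℕ) : ∀ x y : F, Gen (105/4 : k) (21/2) x y →
    sy (KC72.ev (List.ofFn (G8 x y)) (shM T8 i (R0.getD β default))) ∈ SC k F ⊔ Submodule.span ℚ
      {a | ∃ q < 17, a = sy (KC72.ev (List.ofFn (G8 x y)) (shM T8 i (pq.getD q default)))} := by
  induction i with
  | zero =>
    intro x y h
    interval_cases β
    · exact cub0_0 h
    · exact cub0_1 h
  | succ i ih =>
    intro x y h
    have hg := G8l_ne h
    have key := ih (nx x y) (ny x y) (Gen.next' h)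
    rw [G8_next h] at key
    simp only [← ev_subst hg] at key
    exact key

variable (k x y) in
/-- the span of the symbols of the classes of degree at most five -/
noncomputable def VA : Submodule ℚ (B2 F) := SC k F ⊔ Submodule.span ℚ
  {a | ∃ p ∈ clsA, a = sy (KC72.ev (List.ofFn (G8 x y)) p.1)}

lemma mem_getD {i : ℕ} (hi : i < 345) : cls.getD i default ∈ clsA := by
  have hl : i < cls.length := by rw [cls_len]; omega
  rw [List.getD_eq_getElem _ _ hl]
  exact List.mem_take_iff_getElem.mpr ⟨i, by rw [cls_len]; omega, rfl⟩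

lemma memA {i : ℕ} (hi : i < 345) :
    sy (KC72.ev (List.ofFn (G8 x y)) (cls.getD i default).1) ∈ VA k x y :=
  Submodule.mem_sup_right (Submodule.subset_span ⟨_, mem_getD hi, rfl⟩)

lemma sy_oo (h : Gen (105/4 : k) (21/2) x y) {p : ℕ × ℕ} (hp : p.1 < cls.length) :
    sy (KC72.ev (List.ofFn (G8 x y)) (oo cls p)) =
      sy (KC72.ev (List.ofFn (G8 x y)) (cls.getD p.1 default).1) ∨
    sy (KC72.ev (List.ofFn (G8 x y)) (oo cls p)) =
      - sy (KC72.ev (List.ofFn (G8 x y)) (cls.getD p.1 default).1) := by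
  have := cz (k := k) (F := F)
  have hg := G8l_ne h
  have HS := (sols8 h).getD hp
  refine sy_orb ?_ (orb6_orb hg HS p.2)
  intro h2
  rw [h2] at HS
  exact ev_ne hg (cls.getD p.1 default).2 (by linear_combination HS)

/-- **the classes of degree six** -/
theorem cub_mem (h : Gen (105/4 : k) (21/2) x y) {i : ℕ} (hi : i < 8) :
    sy (KC72.ev (List.ofFn (G8 x y)) (cls.getD (345 + i) default).1) ∈ VA k x y := by
  have hg := G8l_ne h
  have h1 := (List.all_eq_true.mp chk1) i (List.mem_range.mpr hi)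
  rw [Bool.and_eq_true, Bool.and_eq_true, Nat.blt_eq, Nat.blt_eq] at h1
  have h2 := (List.all_eq_true.mp chk2) _ (List.mem_range.mpr h1.2.1)
  rw [List.all_eq_true] at h2
  have key := cubj h1.2.2 (cubT.getD i default).2.1 x y h
  have hle : SC k F ⊔ Submodule.span ℚ {a | ∃ q < 17, a = sy (KC72.ev (List.ofFn (G8 x y))
      (shM T8 (cubT.getD i default).2.1 (pq.getD q default)))} ≤ VA k x y := by
    refine sup_le le_sup_left (Submodule.span_le.mpr ?_)
    rintro a ⟨q, hq, rfl⟩
    have h3 := h2 q (List.mem_range.mpr hq)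
    rw [Bool.and_eq_true, Nat.blt_eq] at h3
    show sy _ ∈ VA k x y
    rw [ev_eqM hg h3.2]
    rcases sy_oo h (p := (qT.getD (cubT.getD i default).2.1 []).getD q default)
      (by rw [cls_len]; omega) with h4 | h4
    · rw [h4]; exact memA h3.1
    · rw [h4]; exact Submodule.neg_mem _ (memA h3.1)
  have k2 := hle key
  rw [ev_eqM hg h1.1] at k2
  rcases sy_oo h (p := (345 + i, (cubT.getD i default).2.2))
    (by rw [cls_len]; show 345 + i < 353; omega) with h4 | h4
  · rw [h4] at k2; exact k2
  · rw [h4] at k2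
    have k3 := Submodule.neg_mem _ k2
    rwa [neg_neg] at k3

/-- **the symbols of all solutions** -/
theorem hUA (h : Gen (105/4 : k) (21/2) x y) {f : F} (hf : U8 k x y f) (hf1 : U8 k x y (1 - f)) :
    sy f ∈ SC k F ⊔ Submodule.span ℚ
      {a | ∃ p ∈ clsA, a = sy (KC72.ev (List.ofFn (G8 x y)) p.1)} := by
  have := cz (k := k) (F := F)
  have hg := G8l_ne h
  rcases unit8' h hf hf1 with ⟨c, rfl⟩ | ⟨p, hp, ho⟩
  · exact Submodule.mem_sup_left (Submodule.subset_span ⟨c, rfl⟩)
  · have h1 : KC72.ev (List.ofFn (G8 x y)) p.1 ≠ 1 := by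
      intro h2
      have HS := sols8 h p hp
      rw [h2] at HS
      exact ev_ne hg p.2 (by linear_combination HS)
    have h2 : sy (KC72.ev (List.ofFn (G8 x y)) p.1) ∈ VA k x y := by
      obtain ⟨c, hc, hcp⟩ := List.getElem_of_mem hp
      have h3 : p = cls.getD c default := by rw [List.getD_eq_getElem _ _ hc, hcp]
      rw [cls_len] at hc
      rw [h3]
      by_cases h5 : c < 345
      · exact memA h5
      · have h6 : c = 345 + (c - 345) := by omega
        rw [h6]
        exact cub_mem h (by omega)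
    rcases sy_orb h1 ho with h4 | h4
    · rw [h4]; exact h2
    · rw [h4]; exact Submodule.neg_mem _ h2

end

end Pool.Agent.KYc
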